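import Pool.Agent.Lib.MP_696deb_nt.B2.LKa
import Pool.Agent.Lib.MP_696deb_nt.B2.B2a
import Pool.Agent.Lib.MP_696deb_nt.B2.Stmt

/-! The Galois group of a completion is dense in the decomposition group. -/

set_option autoImplicit false

open scoped NNReal Classical

namespace Pool.Agent.TF

open Pool.Agent.Lib.MP_696deb_nt.B2 Pool.Agent.Lib.MP_f8d36e_nt

variable {p : ℕ} [hp : Fact p.Prime]

theorem ex_res (j : Qbar →+* PadicAlgCl p) (s : Stmt.AbsGal ℚ_[p]) :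
    ∃ σ : Gam, ∀ x, j (σ x) = s (j x) := by
  let _ : Algebra Qbar (PadicAlgCl p) := j.toAlgebra
  have : IsScalarTower ℚ Qbar (PadicAlgCl p) := .of_algebraMap_eq fun q => (map_ratCast j q).symm
  exact ⟨(s.restrictScalars ℚ).restrictNormal Qbar,
    fun x => (s.restrictScalars ℚ).restrictNormal_commutes Qbar x⟩

theorem norm_gal (s : Stmt.AbsGal ℚ_[p]) (x : PadicAlgCl p) : ‖(s x : PadicAlgCl p)‖ = ‖x‖ :=
  (spectralNorm_eq_of_equiv s x).symm

theorem approx {x : PadicAlgCl p} (h : ∀ s : Stmt.AbsGal ℚ_[p], s x = x) {ε : ℝ} (hε : 0 < ε) :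
    ∃ q : ℚ, ‖x - q‖ < ε := by
  obtain ⟨a, rfl⟩ := (InfiniteGalois.mem_range_algebraMap_iff_fixed (k := ℚ_[p]) x).2 h
  obtain ⟨q, hq⟩ := Padic.rat_dense p a hε
  refine ⟨q, ?_⟩
  rw [← map_ratCast (algebraMap ℚ_[p] (PadicAlgCl p)), ← map_sub]
  exact (PadicAlgCl.norm_extends p _).trans_lt hq

/-- The image of the Galois group of the completion. -/
def Hj (j : Qbar →+* PadicAlgCl p) : Subgroup Gam where
  carrier := {σ | ∃ s : Stmt.AbsGal ℚ_[p], ∀ x, j (σ x) = s (j x)}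
  one_mem' := ⟨1, fun _ => rfl⟩
  mul_mem' := fun ⟨s, a⟩ ⟨t, b⟩ => ⟨s * t, fun x => (a _).trans (congrArg s (b x))⟩
  inv_mem' := fun {σ} ⟨s, a⟩ => ⟨s⁻¹, fun x => s.injective (by
    rw [← a]
    exact (congrArg j (σ.apply_symm_apply x)).trans (s.apply_symm_apply _).symm)⟩

theorem dec_closure (j : Qbar →+* PadicAlgCl p) {g : Gam} (hg : ∀ x, ‖j (g x)‖ = ‖j x‖) :
    g ∈ closure (Hj j : Set Gam) := by
  have h := InfiniteGalois.fixingSubgroup_fixedField (k := ℚ) (K := Qbar)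
    ⟨(Hj j).topologicalClosure, (Hj j).isClosed_topologicalClosure⟩
  change g ∈ (Hj j).topologicalClosure
  refine h.le ((IntermediateField.mem_fixingSubgroup_iff _ _).2 fun x hx => ?_)
  have h1 : ∀ s : Stmt.AbsGal ℚ_[p], s (j x) = j x := fun s => by
    obtain ⟨σ, hσ⟩ := ex_res j s
    rw [← hσ, (IntermediateField.mem_fixedField_iff _ _).1 hx σ
      ((Hj j).le_topologicalClosure ⟨s, hσ⟩)]
  refine j.injective (eq_of_forall_dist_le fun ε hε => ?_)
  obtain ⟨q, hq⟩ := approx h1 (half_pos hε)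
  have h2 := hg (x - q)
  simp only [map_sub, map_ratCast] at h2
  rw [dist_eq_norm, ← sub_add_sub_cancel _ (q : PadicAlgCl p)]
  refine (norm_add_le _ _).trans ?_
  rw [h2, norm_sub_rev (q : PadicAlgCl p)]
  linarith

theorem ex_emb (w : Plc) (hw : w.p = p) :
    ∃ j : Qbar →+* PadicAlgCl p, ∀ g ∈ Dec w, ∀ x, ‖j (g x)‖ = ‖j x‖ := by
  let j : Qbar →ₐ[ℚ] PadicAlgCl p := IsAlgClosed.lift
  let v : Plc := ⟨p, hp.out, (Valued.v : Valuation (PadicAlgCl p) ℝ≥0).comap j.toRingHom, by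
    rw [Valuation.comap_apply, map_natCast, PadicAlgCl.valuation_p, one_div]⟩
  obtain ⟨k, rfl⟩ := plc_conj (w := v) (v := w) hw.symm
  exact ⟨j.toRingHom.comp ((k⁻¹ : Gam) : Qbar →+* Qbar), fun g hg x =>
    congrArg NNReal.toReal (mem_Dec.1 hg x)⟩

end Pool.Agent.TF
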