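import Pool.Agent.Lib.MP_696deb_nt.TF.FL

/-! The masses of the types among the primes that split in a quadratic field. -/

set_option autoImplicit false

open scoped Classical
open Finset Function

namespace Pool.Agent.B6.S

open Pool.Agent.Lib.MP_696deb_nt Pool.Agent.Lib.MP_696deb_nt.Sm
open Pool.Agent.Lib.MP_696deb_nt.B2 (jC)

theorem norm_rt {e : ℤ} (he : e ≠ 0) : 1 ≤ ‖jC (rt e)‖ ∧ ‖jC (rt e)‖ ≤ e.natAbs := by
  have h1 : ‖jC (rt e)‖ * ‖jC (rt e)‖ = e.natAbs := by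
    rw [← norm_mul, ← map_mul, rt_mul_self, map_intCast, Complex.norm_intCast, Nat.cast_natAbs,
      Int.cast_abs]
  have h2 : (1 : ℝ) ≤ e.natAbs := by exact_mod_cast Int.natAbs_pos.2 he
  have h3 := norm_nonneg (jC (rt e))
  have h4 : 1 ≤ ‖jC (rt e)‖ := by nlinarith
  exact ⟨h4, by nlinarith⟩

theorem tc_rt {e : ℤ} (he : e ≠ 0) {g : GQ} (hg : chi e g = 1) :
    Tc (fun b : F2 => (sn b : Qb) * rt e) (fun g b => b + chi e g) e.natAbs := by
  have h0 : rt (e : Qb) ≠ 0 := fun h => by simpa [h] using (zero_lt_one.trans_le (norm_rt he).1).ne'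
  have h1 : IsIntegral ℤ (rt (e : Qb)) := IsIntegral.of_pow two_pos (by
    rw [sq, rt_mul_self]
    exact isIntegral_algebraMap (x := e))
  refine ⟨fun a b h => sn_cast_inj (mul_right_cancel₀ h0 h),
    fun b => (isIntegral_algebraMap (x := sn b)).mul h1, fun g b => ?_, fun a b => ?_,
    (norm_rt he).1.trans (norm_rt he).2, fun b => le_trans ?_ (norm_rt he).2⟩
  · rw [map_mul, map_intCast, chi_spec, sn_add, Int.cast_mul, mul_assoc]
  · by_cases h : a = b
    · exact ⟨g * g, by rw [chi_mul_g, CharTwo.add_self_eq_zero, add_zero, h]⟩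
    · refine ⟨g, ?_⟩
      rw [hg]
      revert a b
      decide
  · rcases F2_cases b with rfl | rfl <;> simp [sn_zero, sn_one]

/-- The product of a transitive set with the two square roots of an integer. -/
theorem tc_prod {I : Type} {t : I → Qb} {ac : GQ → I → I} {B : ℝ} (h : Tc t ac B) {e : ℤ}
    (he : e ≠ 0) {g : GQ} {i0 : I} (h1 : ac g i0 = i0) (h2 : chi e g = 1) : ∃ t' : I × F2 → Qb,
      Tc t' (fun g x => (ac g x.1, x.2 + chi e g)) (4 * e.natAbs * B) := by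
  have k := tc_rt he h2
  obtain ⟨l, l1, l2⟩ : ∃ l : ℕ, B < l ∧ l ≤ 3 * B :=
    ⟨⌊B⌋₊ + 1, by exact_mod_cast Nat.lt_floor_add_one B, by
      push_cast
      linarith [Nat.floor_le (zero_le_one.trans h.B1), h.B1]⟩
  have m : ∀ a b i, ac (a * b) i = ac a (ac b i) := fun a b i =>
    h.inj (by rw [← h.act, ← h.act, ← h.act]; rfl)
  have B1 := h.B1
  have e1 := k.B1
  refine ⟨fun x => t x.1 + l * (sn x.2 * rt e), fun x y a => ?_,
    fun x => (h.int _).add ((isIntegral_algebraMap (x := (l : ℤ))).mul (k.int _)),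
    fun g x => by rw [map_add, map_mul, map_natCast, h.act, k.act], fun x y => ?_, by nlinarith,
    fun x => ?_⟩
  · have a1 : x.2 = y.2 := by_contra fun a1 => by
      have a2 : (sn y.2 : Qb) = -sn x.2 := by
        have : ∀ a b : F2, a ≠ b → sn b = -sn a := by decide
        exact_mod_cast this _ _ a1
      have a3 : t y.1 - t x.1 = 2 * l * (sn x.2 * rt e) := by
        simp only [a2] at a
        linear_combination -a
      have a4 := congrArg (fun z => ‖jC z‖) a3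
      have a5 : ‖jC (sn x.2 * rt e)‖ = ‖jC (rt e)‖ := by
        rcases F2_cases x.2 with r | r <;> simp [r, sn_zero, sn_one]
      simp only [map_sub] at a4
      rw [map_mul, norm_mul, a5, map_mul, map_ofNat, map_natCast, norm_mul, Complex.norm_natCast,
        Complex.norm_ofNat] at a4
      nlinarith [norm_sub_le (jC (t y.1)) (jC (t x.1)), h.bd x.1, h.bd y.1, (norm_rt he).1]
    simp only [a1] at a
    exact Prod.ext (h.inj (add_right_cancel a)) a1
  · obtain ⟨a, ha⟩ := h.tr x.1 i0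
    obtain ⟨b, hb⟩ := h.tr i0 y.1
    by_cases r : x.2 + chi e (b * a) = y.2
    · exact ⟨b * a, Prod.ext (by rw [m, ha, hb]) r⟩
    · refine ⟨b * (g * a), Prod.ext (by rw [m, m, ha, h1, hb]) ?_⟩
      simp only [chi_mul_g, h2] at r ⊢
      revert r
      generalize x.2 = u, y.2 = v, chi e b = w, chi e a = z
      revert u v w z
      decide
  · rw [map_add, map_mul, map_natCast]
    refine (norm_add_le _ _).trans ?_
    rw [norm_mul, Complex.norm_natCast]
    nlinarith [h.bd x.1, mul_le_mul l2 (k.bd x.2) (norm_nonneg _) (by linarith)]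

/-- The mass bound among the split primes. -/
theorem tc_spl {I : Type} [Fintype I] [Nonempty I] {t : I → Qb} {ac : GQ → I → I} {B : ℝ}
    (h : Tc t ac B) (hI : Fintype.card I ≤ 4) {e : ℤ} (he : e ≠ 0) {g : GQ} {i0 : I}
    (h1 : ac g i0 = i0) (h2 : chi e g = 1) {z X : ℕ} (hX : 2 ≤ X)
    (hz : (8 * e.natAbs * B) ^ 64 ≤ z) (P Q : ℕ → Prop) (a b : ℕ)
    (hP : ∀ p, P p → p.Prime ∧ ¬ Q p ∧ a ≤ #{i | ac (frb p) i = i})
    (hQ : ∀ p, Q p → p.Prime ∧ b ≤ #{i | ac (frb p) i = i}) :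
    2 * a * ms (Wn z X fun p => P p ∧ Spl e p) + 2 * b * ms (Wn z X fun p => Q p ∧ Spl e p) ≤
      LL X + 250 := by
  obtain ⟨t', k⟩ := tc_prod h he h1 h2
  have B1 := h.B1
  have e1 : (1 : ℝ) ≤ e.natAbs := by exact_mod_cast Int.natAbs_pos.2 he
  have c1 : Fintype.card (I × F2) ≤ 8 := by rw [Fintype.card_prod, ZMod.card]; omega
  have c2 : (Fintype.card (I × F2) : ℝ) ≤ 8 := by exact_mod_cast c1
  have z1 : (2 * (4 * e.natAbs * B)) ^ 64 ≤ z :=
    le_of_eq_of_le (congrArg (· ^ 64) (by ring)) hz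
  have z2 : 2 * (4 * e.natAbs * B) ≤ z := (le_self_pow₀ (by linarith [k.B1]) (by norm_num)).trans z1
  have z3 : 2 * e.natAbs ≤ z := by exact_mod_cast (show (2 : ℝ) * e.natAbs ≤ z by nlinarith)
  have z4 := Int.natAbs_pos.2 he
  have f : ∀ (p c : ℕ), p.Prime → Spl e p → z < p → c ≤ #{i | ac (frb p) i = i} →
      2 * c ≤ #{x : I × F2 | (ac (frb p) x.1, x.2 + chi e (frb p)) = x} := fun p c a1 a2 a3 a4 => by
    rw [chi_frb a1 (by omega) fun d => absurd (Nat.le_of_dvd z4 (Int.natCast_dvd.1 d)) (by omega),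
      aleg_eq_zero_iff.2 a2]
    refine le_trans ?_ (card_le_card (s := ({i | ac (frb p) i = i} : Finset I) ×ˢ univ)
      fun x hx => mem_filter.2 ⟨mem_univ _, Prod.ext (mem_filter.1 (mem_product.1 hx).1).2
        (add_zero _)⟩)
    rw [card_product, card_univ, ZMod.card]
    omega
  have w : ∀ P : ℕ → Prop, Wn z X (fun p => (P p ∧ Spl e p) ∧ z < p) =
      Wn z X fun p => P p ∧ Spl e p := fun P => by
    ext p
    simp only [mem_Wn]
    tauto
  have h3 := tc_ms k (z := z) (by omega) hX (by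
      refine le_trans ?_ z1
      have := k.B1
      calc _ ≤ (8 * (4 * e.natAbs * B) ^ 8) ^ 8 := by
            refine (pow_le_pow_left₀ (by positivity) (mul_le_mul c2 (pow_le_pow_right₀ this c1)
              (by positivity) (by norm_num)) _).trans (pow_le_pow_right₀ ?_ c1)
            linarith [one_le_pow₀ (n := 8) this]
        _ ≤ _ := by
            rw [mul_pow 8, mul_pow 2, ← pow_mul]
            exact mul_le_mul_of_nonneg_right (by norm_num) (by positivity))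
    ((pow_le_pow_right₀ (by linarith [k.B1]) (Nat.pow_le_pow_left c1 2)).trans z1)
    (fun p => (P p ∧ Spl e p) ∧ z < p) (fun p => (Q p ∧ Spl e p) ∧ z < p) (2 * a) (2 * b)
    (fun p r => ⟨(hP p r.1.1).1, fun s => (hP p r.1.1).2.1 s.1.1, by
      convert f p a (hP p r.1.1).1 r.1.2 r.2 (hP p r.1.1).2.2⟩)
    fun p r => ⟨(hQ p r.1.1).1, by convert f p b (hQ p r.1.1).1 r.1.2 r.2 (hQ p r.1.1).2⟩
  rw [w, w] at h3
  push_cast at h3
  nlinarith [Nat.cast_nonneg (α := ℝ) (Fintype.card (I × F2))]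

theorem exists_chi_one {e : ℤ} (h : ¬ IsSquare e) : ∃ g, chi e g = 1 :=
  (B2.exists_chi_ne h).imp fun _ k => B2.xi_eq_one.2 k

/-- The upper bound for the mass of the split primes. -/
theorem spl_upper {e : ℤ} (he : ¬ IsSquare e) : ∃ c : ℝ, ∀ X : ℕ, 2 ≤ X →
    2 * ms (Wn 0 X fun p => p.Prime ∧ Spl e p) ≤ LL X + c := by
  obtain ⟨g, hg⟩ := exists_chi_one he
  have e0 : e ≠ 0 := fun h => he (h ▸ IsSquare.zero)
  have k : Tc (fun _ : Unit => (1 : Qb)) (fun _ i => i) 1 :=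
    ⟨fun _ _ _ => rfl, fun _ => isIntegral_one, fun g _ => map_one g, fun _ _ => ⟨1, rfl⟩, le_rfl,
      fun _ => by simp⟩
  obtain ⟨z, hz⟩ := exists_nat_ge ((8 * e.natAbs * 1 : ℝ) ^ 64)
  refine ⟨250 + 2 * ms (Icc 0 z), fun X hX => ?_⟩
  have h1 := tc_spl k (by simp) e0 (i0 := ()) rfl hg hX hz Nat.Prime (fun _ => False) 1 0
    (fun p r => ⟨r, not_false, by simp⟩) fun p r => r.elim
  have h2 := (ms_mono (P := Wn 0 X fun p => p.Prime ∧ Spl e p) fun p hp => by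
    simp only [mem_Wn, mem_union, mem_Icc] at hp ⊢
    exact (le_or_gt p z).imp (fun r => ⟨p.zero_le, r⟩) fun r => ⟨r, hp.2⟩).trans
    (ms_union (Icc 0 z) (Wn z X fun p => p.Prime ∧ Spl e p))
  push_cast at h1
  linarith

namespace Cv

variable (C : Cv) {e : ℤ}

theorem exists_kpm (h1 : ¬ IsSquare e) (h2 : ¬ IsSquare (C.disc * e)) :
    ∃ g, (∀ i, C.pm g i = i) ∧ chi e g = 1 := by
  have e0 : e ≠ 0 := fun h => h1 (h ▸ IsSquare.zero)
  obtain ⟨g, a1, a2⟩ : ∃ g, chi C.disc g = 0 ∧ chi e g = 1 := by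
    obtain ⟨a, ha⟩ := exists_chi_one h1
    obtain ⟨b, hb⟩ := exists_chi_one h2
    rw [chi_mul C.disc_neg.ne e0] at hb
    rcases F2_cases (chi C.disc a) with r | r
    · exact ⟨a, r, ha⟩
    rcases F2_cases (chi C.disc b) with s | s
    · exact ⟨b, s, by rwa [s, zero_add] at hb⟩
    · rw [s, add_eq_left] at hb
      exact ⟨a * b, by rw [chi_mul_g, r, s]; rfl, by rw [chi_mul_g, ha, hb, add_zero]⟩
  have k : ∀ h, chi C.disc h = 0 → C.pm h 0 = 0 → ∀ i, C.pm h i = i := fun h b1 b2 => by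
    rcases C.pm_cases h with r | r | r
    · exact r
    · exact absurd (b1.symm.trans ((C.chi_disc h).2 r)) zero_ne_one
    · exact absurd b2 (r 0)
  rcases fin3 (C.pm g 0) with r | r | r
  · exact ⟨g, k g a1 r, a2⟩
  · exact ⟨C.g0 * (C.g0 * g), k _ (by simp only [chi_mul_g, chi_g0, a1, add_zero])
      (by rw [pm_mul, pm_mul, r, pm_g0, pm_g0]; rfl), by simp only [chi_mul_g, chi_g0, a2, zero_add]⟩
  · exact ⟨C.g0 * g, k _ (by simp only [chi_mul_g, chi_g0, a1, add_zero])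
      (by rw [pm_mul, r, pm_g0]; rfl), by simp only [chi_mul_g, chi_g0, a2, zero_add]⟩

/-- The masses of the types among the split primes. -/
theorem ms_spl (h1 : ¬ IsSquare e) (h2 : ¬ IsSquare (C.disc * e)) : C.Ms (Spl e) (1 / 4) := by
  have e0 : e ≠ 0 := fun h => h1 (h ▸ IsSquare.zero)
  obtain ⟨g, g1, g2⟩ := C.exists_kpm h1 h2
  have g3 : chi C.disc g = 0 := (F2_cases _).resolve_right fun r => by
    obtain ⟨t, r⟩ := (C.chi_disc g).1 r
    exact absurd (((r 0).1 (g1 0)).trans ((r 1).1 (g1 1)).symm) (by decide)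
  obtain ⟨c1, l1⟩ := spl_lower h1
  obtain ⟨c2, l2⟩ := spl_upper h1
  obtain ⟨z0, hz0⟩ := exists_nat_ge (max ((8 * e.natAbs * (C.R : ℝ)) ^ 64)
    ((8 * e.natAbs * max 1 ‖jC C.del‖) ^ 64))
  refine ⟨C.N0 + z0 + 3, 24 * e.natAbs, |c1 + c2| + 500, fun z X hz hX => ?_⟩
  have z1 : C.N0 ≤ z := by omega
  have z3 := hz0.trans (Nat.cast_le.2 (show z0 ≤ z by omega))
  have z4 := LL_nonneg (z := z) (by omega)
  rw [max_le_iff] at z3
  have h0 := (ms_mono (P := Wn 0 X fun p => p.Prime ∧ Spl e p) fun p hp => by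
    simp only [mem_Wn, mem_union] at hp ⊢
    refine (le_or_gt p z).imp (fun r => ⟨hp.1, r, hp.2.2⟩) fun r => ?_
    exact (C.ty_cases ⟨hp.2.2.1, z1.trans_lt r⟩).imp (fun s => ⟨r, hp.2.1, s, hp.2.2.2⟩)
      (Or.imp (fun s => ⟨r, hp.2.1, s, hp.2.2.2⟩) fun s => ⟨r, hp.2.1, s, hp.2.2.2⟩)).trans
    ((ms_union (Wn 0 z fun p => p.Prime ∧ Spl e p) _).trans (add_le_add le_rfl
      ((ms_union (Wn z X fun p => C.Ty1 p ∧ Spl e p) _).trans (add_le_add le_rfl
        (ms_union (Wn z X fun p => C.Ty2 p ∧ Spl e p) (Wn z X fun p => C.Ty3 p ∧ Spl e p))))))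
  have f : ∀ p, C.Gp p → ¬ C.Ty2 p → 2 ≤ #{i : F2 | i + chi C.disc (frb p) = i} := fun p a k => by
    rw [(F2_cases _).resolve_right fun e => k (C.ty2_iff.2 ⟨a, e⟩)]
    simp
  have h3 := tc_spl C.tc_del (by simp) e0 (g := g) (i0 := 0) (by rw [g3, add_zero]) g2 hX z3.2
    C.Ty1 C.Ty3 2 2 (fun p k => ⟨k.1.1, k.not3, by convert f p k.1 k.not2⟩)
    fun p k => ⟨k.1.1, by convert f p k.1 fun a => a.not3 k⟩
  have h4 := tc_spl C.tc_e (by simp) e0 (g1 0) g2 hX z3.1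
    C.Ty1 C.Ty2 3 1 (fun p k => ⟨k.1.1, k.not2, by simp [k.2]⟩)
    fun p k => ⟨k.1.1, card_pos.2 ⟨C.tp p, by simpa using k.fix⟩⟩
  have h5 := l1 X hX
  have h6 := l2 z (by omega)
  have h7 := le_abs_self (c1 + c2)
  have h8 := abs_nonneg (c1 + c2)
  push_cast at h3 h4
  refine ⟨by linarith, by linarith, fun D c B hc h0' hB B1 hz' => ?_⟩
  obtain ⟨t, ac, a1, a2⟩ := hB.tc B1 hc h0'
  have := C.finite_two
  have := Fintype.ofFinite {S : C.A // 2 • S = 0}
  have : Nonempty {S : C.A // 2 • S = 0} := ⟨⟨0, nsmul_zero 2⟩⟩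
  obtain ⟨S0, s1, s2⟩ := fix_one (φ := g * C.g0) (fun i => by
    rw [pm_mul, g1, pm_g0]
    revert i
    decide) (hc.1.two (g * C.g0) trivial)
  have h9 := tc_spl a1 C.card_two.le e0 (g := g * C.g0) (i0 := ⟨S0, s1⟩)
    (Subtype.ext ((a2 _ _).trans s2)) (by rw [chi_mul_g, g2, chi_g0, add_zero]) hX
    (le_of_eq_of_le (congrArg (· ^ 64) (by push_cast; ring)) hz')
    (fun p => C.Ty2 p ∧ C.sy c p = 0) C.Ty3 2 1 (fun p k => ⟨k.1.1.1, k.1.not3, by
      obtain ⟨S, S', b1, b2, b3, b4, b5⟩ := fix_two k.1.2 k.2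
      refine one_lt_card.2 ⟨⟨S, b2⟩, ?_, ⟨S', b3⟩, ?_, fun e => b1 (congrArg Subtype.val e)⟩ <;>
        simp only [mem_filter, mem_univ, true_and, Subtype.ext_iff, a2] <;> assumption⟩)
    fun p k => ⟨k.1.1, by
      obtain ⟨S, b1, b2⟩ := fix_one k.2 (hc.1.two (frb p) trivial)
      refine card_pos.2 ⟨⟨S, b1⟩, ?_⟩
      simp only [mem_filter, mem_univ, true_and, Subtype.ext_iff, a2]
      exact b2⟩
  have h10 := (ms_mono (P := Wn z X fun p => C.Ty2 p ∧ Spl e p) fun p hp => by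
    simp only [mem_Wn, mem_union] at hp ⊢
    exact (F2_cases (C.sy c p)).imp (fun r => ⟨hp.1, hp.2.1, ⟨hp.2.2.1, r⟩, hp.2.2.2⟩)
      fun r => ⟨hp.1, hp.2.1, ⟨hp.2.2.1, r⟩, hp.2.2.2⟩).trans (ms_union
      (Wn z X fun p => (C.Ty2 p ∧ C.sy c p = 0) ∧ Spl e p)
      (Wn z X fun p => (C.Ty2 p ∧ C.sy c p = 1) ∧ Spl e p))
  push_cast at h9
  linarith

end Cv

end Pool.Agent.B6.S
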