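import Pool.Agent.Lib.MP_696deb_nt.TF.L1
import Pool.Agent.Lib.MP_696deb_nt.Sm.Ell
import Pool.Agent.Lib.MP_696deb_nt.CanHeight

/-! A point whose multiple is rational over a completion is algebraic modulo rational points. -/

set_option autoImplicit false

open scoped NNReal Classical
open WeierstrassCurve WeierstrassCurve.Affine

namespace Pool.Agent.TF

open Pool.Agent.Lib.MP_696deb_nt Pool.Agent.Lib.MP_696deb_nt.B2 Pool.Agent.Lib.MP_f8d36e_nt
open Pool.Agent.Lib.MP_696deb_nt.Sm (F2 sn ell_s ell_y ell_T12 ell_add_k ell_s_sn ell_sq ell_ext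
  F2_cases sn_add sn_zero sn_one ell_s_some)

section
variable {K : Type} [Field K] {W : WeierstrassCurve K} {e1 e2 e3 : K}

theorem tors_form (h : Split W e1 e2 e3) {U : W.toAffine.Point} (hU : 2 • U = 0) :
    ∃ k l : F2, U = k.val • h.T + l.val • h.swap12.T := by
  rcases U with _ | ⟨x, y, hP⟩
  · exact ⟨0, 0, by simp [← Point.zero_def]⟩
  obtain rfl := (ell_y h).1 hU
  have e := (h.nonsingular_iff x 0).1 hP
  rw [zero_pow two_ne_zero, eq_comm, mul_eq_zero, mul_eq_zero, sub_eq_zero, sub_eq_zero,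
    sub_eq_zero] at e
  rcases e with (rfl | rfl) | rfl
  · exact ⟨1, 0, by simp [ZMod.val_one, Split.T]⟩
  · exact ⟨0, 1, by simp [ZMod.val_one, Split.T]⟩
  · exact ⟨1, 1, by rw [ZMod.val_one, one_nsmul, one_nsmul, add_comm, ell_T12]; rfl⟩

theorem two_sn {A : Type} [AddCommGroup A] {Q : A} (hQ : 2 • Q ≠ 0) (c : F2) :
    2 • sn c • Q ≠ 0 := by
  rcases F2_cases c with rfl | rfl
  · simpa [sn_zero] using hQ
  · simpa [sn_one] using hQ

theorem ell_sign (h : Split W e1 e2 e3) {Q R : W.toAffine.Point} (hQ : 2 • Q ≠ 0) {c k l : F2}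
    (e : R = sn c • Q + (k.val • h.T + l.val • h.swap12.T)) :
    ell_s W e1 R = (sn (c + l) : K) * ell_s W e1 Q ∧ ell_s W e2 R = (sn (c + k) : K) * ell_s W e2 Q ∧
      ell_s W e3 R = (sn (c + k + l) : K) * ell_s W e3 Q := by
  have h1 := two_sn hQ c
  have h2 : 2 • (sn c • Q + k.val • h.T) ≠ 0 := by
    rwa [smul_add, smul_comm 2 k.val, h.two_nsmul_T, smul_zero, add_zero]
  obtain ⟨a1, a2, a3⟩ := ell_add_k h h1 k
  obtain ⟨b1, b2, b3⟩ := ell_add_k h.swap12 h2 l
  rw [e, ← add_assoc, b1, b2, b3, a1, a2, a3]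
  simp only [ell_s_sn h, sn_add, Int.cast_mul]
  exact ⟨by ring, by ring, by ring⟩

theorem ex_half [IsAlgClosed K] (h : Split W e1 e2 e3) (P : W.toAffine.Point) : ∃ Q, 2 • Q = P := by
  rcases P with _ | ⟨x, y, hP⟩
  · exact ⟨0, rfl⟩
  · exact (h.exists_half hP (IsAlgClosed.exists_eq_mul_self _) (IsAlgClosed.exists_eq_mul_self _)
      (IsAlgClosed.exists_eq_mul_self _)).imp fun _ => Eq.symm

theorem sn_cancel [CharZero K] {a b : F2} {x y : K} (h0 : x * y ≠ 0)
    (h : (sn a : K) * x * ((sn b : K) * y) = x * y) : a = b := by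
  have h1 : ((sn a * sn b : ℤ) : K) = 1 := mul_right_cancel₀ h0 (by push_cast; linear_combination h)
  exact (by decide : ∀ a b : F2, sn a * sn b = 1 → a = b) a b (by exact_mod_cast h1)

end

variable {p : ℕ} [hp : Fact p.Prime]

/-- The square root that is close to `z`. -/
def Near (z u r : PadicAlgCl p) : Prop := r * r = z * u ∧ ‖r - z‖ < ‖(2 : PadicAlgCl p)‖ * ‖z‖

theorem Near.unique {z u r r' : PadicAlgCl p} (h : Near z u r) (h' : Near z u r') : r = r' := by
  refine (mul_self_eq_mul_self_iff.1 (h.1.trans h'.1.symm)).resolve_right fun e => ?_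
  have := IsUltrametricDist.norm_add_le_max (r - z) (r' - z)
  rw [show r - z + (r' - z) = -(2 * z) by rw [e]; ring, norm_neg, norm_mul] at this
  exact (max_lt h.2 h'.2).not_ge this

theorem near_ex {z u r : PadicAlgCl p} (h : r * r = z * u) (z0 : z ≠ 0)
    (k : ‖u - z‖ < ‖(2 : PadicAlgCl p)‖ ^ 2 * ‖z‖) : ∃ m : F2, Near z u (sn m * r) := by
  by_contra c
  have c0 : ‖(2 : PadicAlgCl p)‖ * ‖z‖ ≤ ‖r - z‖ := not_lt.1 fun a =>
    c ⟨0, by simpa [sn_zero] using h, by simpa [sn_zero] using a⟩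
  have c1 : ‖(2 : PadicAlgCl p)‖ * ‖z‖ ≤ ‖-r - z‖ := not_lt.1 fun a =>
    c ⟨1, by simpa [sn_one] using h, by simpa [sn_one] using a⟩
  have c2 := mul_le_mul c0 c1 (by positivity) (norm_nonneg _)
  rw [← norm_mul (r - z), show (r - z) * (-r - z) = -(z * (u - z)) by linear_combination -h,
    norm_neg, norm_mul] at c2
  nlinarith [norm_pos_iff.2 z0]

theorem Near.gal {z u r : PadicAlgCl p} (h : Near z u r) (s : Stmt.AbsGal ℚ_[p]) :
    Near (s z) (s u) (s r) :=
  ⟨by rw [← map_mul, ← map_mul, h.1], by rw [← map_sub, norm_gal, norm_gal]; exact h.2⟩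

variable {W : WeierstrassCurve ℚ} {e1 e2 e3 : Qbar}

theorem split_map (h : Split (W.baseChange Qbar) e1 e2 e3) (j : Qbar →+* PadicAlgCl p) :
    Split (W.baseChange (PadicAlgCl p)) (j e1) (j e2) (j e3) := by
  obtain ⟨a1, a3, a2, a4, a6, b1, b2, b3, -⟩ := h
  refine ⟨?_, ?_, ?_, ?_, ?_, j.injective.ne b1, j.injective.ne b2, j.injective.ne b3, two_ne_zero⟩
  · simpa [WeierstrassCurve.baseChange] using a1
  · simpa [WeierstrassCurve.baseChange] using a3
  · simpa [WeierstrassCurve.baseChange] using congrArg j a2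
  · simpa [WeierstrassCurve.baseChange] using congrArg j a4
  · simpa [WeierstrassCurve.baseChange] using congrArg j a6

theorem pmap_T (h : Split (W.baseChange Qbar) e1 e2 e3) (j : Qbar →+* PadicAlgCl p) :
    pmap (W := W) j h.T = (split_map h j).T := ell_ext rfl (map_zero j)

theorem ell_gal (s : PadicAlgCl p →+* PadicAlgCl p) (z : PadicAlgCl p) (Q : Pt W (PadicAlgCl p)) :
    ell_s _ (s z) (pmap s Q) = s (ell_s _ z Q) := by
  rcases Q with _ | ⟨x, y, k⟩
  · exact (map_zero s).symm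
  · refine (ell_s_some _ _).trans ?_
    rw [ell_s_some]
    simp [WeierstrassCurve.baseChange, map_ofNat]

theorem half_alg (h : Split (W.baseChange Qbar) e1 e2 e3) (j : Qbar →+* PadicAlgCl p)
    {T : Pt W (PadicAlgCl p)} (k : 2 • T ∈ (pmap (W := W) j).range) : T ∈ (pmap (W := W) j).range := by
  obtain ⟨Q, k⟩ := k
  obtain ⟨Q, rfl⟩ := ex_half h Q
  obtain ⟨a, b, e⟩ := tors_form (split_map h j) (U := T - pmap j Q) (by
    rw [smul_sub, ← k, map_nsmul, sub_self])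
  exact ⟨Q + (a.val • h.T + b.val • h.swap12.T), by
    rw [map_add, map_add, map_nsmul, map_nsmul, eq_comm, ← sub_eq_iff_eq_add', e, pmap_T, pmap_T]⟩

theorem half_fix (h : Split (W.baseChange Qbar) e1 e2 e3) (j : Qbar →+* PadicAlgCl p)
    {Q : Pt W (PadicAlgCl p)} (hQ : ∀ s : Stmt.AbsGal ℚ_[p],
      pmap (s : PadicAlgCl p →+* PadicAlgCl p) (2 • Q) = 2 • Q) :
    ∃ Q' : Pt W Qbar, ∀ s : Stmt.AbsGal ℚ_[p],
      pmap (s : PadicAlgCl p →+* PadicAlgCl p) (Q - pmap j Q') = Q - pmap j Q' := by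
  have h' := split_map h j
  by_cases z : 2 • 2 • Q = 0
  · obtain ⟨Q', rfl⟩ := half_alg h j (half_alg h j (z ▸ zero_mem _))
    exact ⟨Q', fun s => by rw [sub_self, map_zero]⟩
  have q0 : 2 • Q ≠ 0 := fun e => z (by rw [e, smul_zero])
  obtain ⟨x, y, hP, e⟩ : ∃ x y hP, 2 • Q = Point.some x y hP := by
    rcases k : 2 • Q with _ | ⟨x, y, hP⟩
    exacts [absurd k q0, ⟨x, y, hP, rfl⟩]
  have y0 : y ≠ 0 := fun k => z (e ▸ (ell_y h').2 k)
  have hx : ∀ s : Stmt.AbsGal ℚ_[p], s x = x := fun s => by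
    have := congrArg xco (hQ s)
    rwa [xco_pmap, e] at this
  have n := (h'.nonsingular_iff x y).1 hP ▸ pow_ne_zero 2 y0
  have n1 := left_ne_zero_of_mul (left_ne_zero_of_mul n)
  have n2 := right_ne_zero_of_mul (left_ne_zero_of_mul n)
  have n3 := right_ne_zero_of_mul n
  have t0 : 0 < ‖(2 : PadicAlgCl p)‖ ^ 2 := pow_pos (norm_pos_iff.2 two_ne_zero) 2
  obtain ⟨q, hq⟩ := approx hx (lt_min (mul_pos t0 (norm_pos_iff.2 n1))
    (lt_min (mul_pos t0 (norm_pos_iff.2 n2)) (mul_pos t0 (norm_pos_iff.2 n3))))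
  rw [norm_sub_rev, lt_min_iff, lt_min_iff] at hq
  obtain ⟨v, hv⟩ := IsAlgClosed.exists_pow_nat_eq (((q : Qbar) - e1) * (q - e2) * (q - e3)) two_pos
  obtain ⟨R, hR⟩ := ex_half h (.some q v ((h.nonsingular_iff _ _).2 hv))
  obtain ⟨v', hv', hR'⟩ : ∃ v' hv', 2 • pmap j R = Point.some (q : PadicAlgCl p) v' hv' := by
    rw [← map_nsmul, hR]
    exact ⟨j v, (h'.nonsingular_iff _ _).2 (by simpa using congrArg j hv),
      ell_ext (map_ratCast j q) rfl⟩
  have r0 : 2 • pmap j R ≠ 0 := hR' ▸ Point.some_ne_zero _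
  have key : ∀ {z a b : PadicAlgCl p} (k : Split (W.baseChange (PadicAlgCl p)) z a b), x - z ≠ 0 →
      ‖q - x‖ < ‖(2 : PadicAlgCl p)‖ ^ 2 * ‖x - z‖ →
      ∃ m : F2, Near (x - z) (q - z) (ell_s _ z Q * (sn m * ell_s _ z (pmap j R))) :=
    fun {z a b} k k1 k2 => by
      simp only [mul_left_comm (ell_s _ z Q)]
      exact near_ex (by rw [← ell_sq k e, ← ell_sq k hR']; ring) k1 (by rwa [sub_sub_sub_cancel_right])
  obtain ⟨m1, c1⟩ := key h' n1 hq.1
  obtain ⟨m2, c2⟩ := key h'.swap12 n2 hq.2.1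
  obtain ⟨m3, c3⟩ := key h'.swap13 n3 hq.2.2
  obtain ⟨Q', e'⟩ : ∃ Q' : Pt W Qbar, pmap j Q' = sn (m1 + m2 + m3) • pmap j R +
      ((m1 + m3).val • h'.T + (m2 + m3).val • h'.swap12.T) :=
    ⟨sn (m1 + m2 + m3) • R + ((m1 + m3).val • h.T + (m2 + m3).val • h.swap12.T), by
      rw [map_add, map_add, map_zsmul, map_nsmul, map_nsmul, pmap_T, pmap_T]⟩
  obtain ⟨d1, d2, d3⟩ := ell_sign h' r0 e'
  have f2 : ∀ a b c : F2, a + b + c + (b + c) = a ∧ a + b + c + (a + c) = b ∧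
      a + b + c + (a + c) + (b + c) = c := by decide
  rw [(f2 _ _ _).1] at d1
  rw [(f2 _ _ _).2.1] at d2
  rw [(f2 _ _ _).2.2] at d3
  rw [← d1] at c1
  rw [← d2] at c2
  rw [← d3] at c3
  have dq : 2 • pmap j Q' = sn (m1 + m2 + m3) • Point.some (q : PadicAlgCl p) v' hv' := by
    rw [e', smul_add, smul_add, smul_comm 2 (m1 + m3).val, smul_comm 2 (m2 + m3).val,
      h'.two_nsmul_T, h'.swap12.two_nsmul_T, smul_zero, smul_zero, add_zero, add_zero, smul_comm,
      hR']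
  have q1 : 2 • pmap j Q' ≠ 0 := by
    rw [dq, ← hR', ← smul_comm (2 : ℕ)]
    exact two_sn r0 _
  have all : ∀ z, (z - j e1) * (z - j e2) * (z - j e3) = 0 →
      Near (x - z) (q - z) (ell_s _ z Q * ell_s _ z (pmap j Q')) := fun z k => by
    rw [mul_eq_zero, mul_eq_zero, sub_eq_zero, sub_eq_zero, sub_eq_zero] at k
    rcases k with (rfl | rfl) | rfl
    exacts [c1, c2, c3]
  refine ⟨Q', fun s => ?_⟩
  have inv : ∀ z, (z - j e1) * (z - j e2) * (z - j e3) = 0 →
      ell_s _ z (pmap (s : PadicAlgCl p →+* PadicAlgCl p) Q) *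
        ell_s _ z (pmap (s : PadicAlgCl p →+* PadicAlgCl p) (pmap j Q')) =
      ell_s _ z Q * ell_s _ z (pmap j Q') := fun z k => by
    obtain ⟨z, rfl⟩ := s.surjective z
    have k1 : (z - j e1) * (z - j e2) * (z - j e3) = 0 := by
      have := (h'.equation_iff (s z) 0).2 (by rw [k]; ring)
      have k2 := (h'.equation_iff z 0).1 (by
        rw [Affine.equation_iff] at this ⊢
        refine s.injective ?_
        simpa [WeierstrassCurve.baseChange] using this)
      rw [← k2]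
      ring
    have k2 := (all z k1).gal s
    rw [map_sub, map_sub, hx, map_ratCast, map_mul] at k2
    exact ((congrArg₂ (· * ·) (ell_gal s z Q) (ell_gal s z _)).trans (k2.unique (all _ k)))
  obtain ⟨k, l, u⟩ := tors_form h' (U := pmap (s : PadicAlgCl p →+* PadicAlgCl p) Q - Q) (by
    rw [smul_sub, ← map_nsmul, hQ, sub_self])
  obtain ⟨c, hc⟩ : ∃ c : F2, pmap (s : PadicAlgCl p →+* PadicAlgCl p)
      (Point.some (q : PadicAlgCl p) v' hv') = sn c • Point.some (q : PadicAlgCl p) v' hv' := by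
    rcases (Point.X_eq_iff (h₁ := _) (h₂ := hv')).1 (map_ratCast s q) with a | a
    · exact ⟨0, by rw [sn_zero, one_smul]; exact a⟩
    · exact ⟨1, by rw [sn_one, neg_one_smul]; exact a⟩
  obtain ⟨k', l', u'⟩ := tors_form h' (U := pmap (s : PadicAlgCl p →+* PadicAlgCl p) (pmap j Q') -
      sn c • pmap j Q') (by
    rw [smul_sub, ← map_nsmul, smul_comm, dq, map_zsmul, hc, smul_comm, sub_self])
  rw [sub_eq_iff_eq_add'] at u u'
  obtain ⟨a1, a2, a3⟩ := ell_sign h' q0 (c := 0) (u.trans (by rw [sn_zero, one_smul]))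
  obtain ⟨b1, b2, b3⟩ := ell_sign h' q1 u'
  have nz : ∀ {z u r : PadicAlgCl p}, Near z u r → r ≠ 0 := fun {z u r} k r0 => by
    have k1 := k.2
    have k2 : ‖(2 : PadicAlgCl p)‖ ≤ 1 := IsUltrametricDist.norm_natCast_le_one _ 2
    rw [r0, zero_sub, norm_neg] at k1
    nlinarith [norm_nonneg z]
  have i1 := sn_cancel (nz c1) (by rw [← a1, ← b1]; exact inv _ (by ring))
  have i2 := sn_cancel (nz c2) (by rw [← a2, ← b2]; exact inv _ (by ring))
  have i3 := sn_cancel (nz c3) (by rw [← a3, ← b3]; exact inv _ (by ring))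
  obtain ⟨rfl, rfl, rfl⟩ : c = 0 ∧ k = k' ∧ l = l' := by
    revert i1 i2 i3
    generalize c = c, k = k, l = l, k' = k', l' = l'
    revert c k l k' l'
    decide
  rw [map_sub, u, u', sn_zero, one_smul, add_sub_add_right_eq_sub]

theorem pow_fix (h : Split (W.baseChange Qbar) e1 e2 e3) (j : Qbar →+* PadicAlgCl p) (m : ℕ)
    {Q : Pt W (PadicAlgCl p)} (hQ : ∀ s : Stmt.AbsGal ℚ_[p],
      pmap (s : PadicAlgCl p →+* PadicAlgCl p) (2 ^ m • Q) = 2 ^ m • Q) :
    ∃ Q' : Pt W Qbar, ∀ s : Stmt.AbsGal ℚ_[p],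
      pmap (s : PadicAlgCl p →+* PadicAlgCl p) (Q - pmap j Q') = Q - pmap j Q' := by
  induction m generalizing Q with
  | zero => exact ⟨0, by simpa using hQ⟩
  | succ m ih =>
    obtain ⟨A, hA⟩ := ih (Q := 2 • Q) (by simpa only [pow_succ, mul_smul] using hQ)
    obtain ⟨A, rfl⟩ := ex_half h A
    obtain ⟨B, hB⟩ := half_fix h j (Q := Q - pmap j A) (by
      simpa only [smul_sub, map_nsmul] using hA)
    exact ⟨A + B, by simpa only [map_add, sub_sub] using hB⟩

end Pool.Agent.TF
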