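import Pool.Agent.Lib.MP_696deb_nt.B6.SBig
import Pool.Agent.Lib.MP_696deb_nt.B6.SNb

/-! Weights on the integers that are compatible with boxes. -/

set_option autoImplicit false

open scoped Classical
open Finset Function

namespace Pool.Agent.B6.S

open Pool.Agent.Lib.MP_696deb_nt Pool.Agent.Lib.MP_696deb_nt.Sm Pool.Agent.Lib.MP_696deb_nt.Sa

/-- A family of weights `w T` on the interval from `1` to `X T`, with majorants `W T`. -/
structure Wt (C : Cv) where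
  X : ℕ → ℕ
  w : ℕ → ℕ → ℝ
  W : ℕ → ℕ → ℝ
  A : ℝ
  L : ℕ
  lab : ℕ → ℕ
  lab_lt : ∀ p, lab p < L
  lab_same : ∀ (D : ℤ) (p q : ℕ), C.Ty2 p → C.Ty2 q → C.Same D p q → lab p = lab q
  le_X : ∀ T, T ≤ X T
  X_le : ∀ T, X T ≤ T ^ 2
  A0 : 0 ≤ A
  w0 : ∀ T n, 0 ≤ w T n
  W0 : ∀ T n, 0 ≤ W T n
  tot : ∀ T, ∑ n ∈ Icc 1 (2 * X T), W T n ≤ A * X T
  dvd : ∀ T d, Squarefree d →
    ∑ n ∈ (Icc 1 (X T)).filter (d ∣ ·), w T n ≤ A * 2 ^ d.primeFactors.card * X T / d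
  box : ∀ (T d r : ℕ) (x y : Fin r → ℕ), Squarefree (d * ∏ j, x j) → Squarefree (d * ∏ j, y j) →
    (∀ j, (x j).Prime ∧ (y j).Prime ∧ lab (x j) = lab (y j)) →
    (∀ S : Finset (Fin r), ∏ j ∈ S, y j ≤ 2 * ∏ j ∈ S, x j) →
    w T (d * ∏ j, x j) ≤ W T (d * ∏ j, y j)

namespace Wt

variable {C : Cv} (V : Wt C)

/-- A property that holds for a small part of the weight. -/
def Rare (P : ℕ → ℕ → ℕ → Prop) : Prop := ∀ ε : ℝ, 0 < ε → ∃ m0 : ℕ, ∀ m ≥ m0, ∀ T, Sz m T →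
  ∀ S : Finset ℕ, (∀ n ∈ S, n ∈ Icc 1 (V.X T) ∧ P m (V.X T) n) → ∑ n ∈ S, V.w T n ≤ ε * V.X T

/-- Cocycles of small conductor are seen by a large prime. -/
def R5 : Prop := V.Rare fun m _ n => Squarefree n ∧ G2 m n ∧ ¬ C.Sees m (d0 m n) n

/-- The windows contain many primes of the second type. -/
def R6 : Prop := V.Rare fun m _ n => Squarefree n ∧ ¬ C.H6 m n

/-- There are more primes of the second type than twice the primes of the first type. -/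
def R7 : Prop := V.Rare fun m X n => Squarefree n ∧ ¬ C.H7 m X n

variable {V}

theorem Rare.or {P Q : ℕ → ℕ → ℕ → Prop} (h : V.Rare P) (k : V.Rare Q) :
    V.Rare fun m X n => P m X n ∨ Q m X n := by
  intro ε hε
  obtain ⟨m1, h1⟩ := h (ε / 2) (half_pos hε)
  obtain ⟨m2, h2⟩ := k (ε / 2) (half_pos hε)
  refine ⟨m1 + m2, fun m hm T hT S hS => ?_⟩
  rw [← sum_filter_add_sum_filter_not S (P m (V.X T))]
  linarith [h1 m (by omega) T hT (S.filter (P m (V.X T))) fun n hn =>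
      ⟨(hS n (mem_filter.1 hn).1).1, (mem_filter.1 hn).2⟩,
    h2 m (by omega) T hT (S.filter fun n => ¬ P m (V.X T) n) fun n hn =>
      ⟨(hS n (mem_filter.1 hn).1).1, (hS n (mem_filter.1 hn).1).2.resolve_left (mem_filter.1 hn).2⟩]

theorem Rare.mono {P Q : ℕ → ℕ → ℕ → Prop} (h : V.Rare P) (k : ∀ m X n, Q m X n → P m X n) :
    V.Rare Q := by
  intro ε hε
  obtain ⟨m1, h1⟩ := h ε hε
  exact ⟨m1, fun m hm T hT S hS => h1 m hm T hT S fun n hn => ⟨(hS n hn).1, k _ _ _ (hS n hn).2⟩⟩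

theorem rare_of {P : ℕ → ℕ → ℕ → Prop} (m0 : ℕ) (B : ℝ)
    (h : ∀ m ≥ m0, ∀ T, Sz m T → ∀ S : Finset ℕ, (∀ n ∈ S, n ∈ Icc 1 (V.X T) ∧ P m (V.X T) n) →
      (∑ n ∈ S, V.w T n) * Real.sqrt m ≤ B * V.X T) : V.Rare P := by
  intro ε hε
  obtain ⟨m1, h1⟩ := exists_nat_ge ((B / ε) ^ 2)
  refine ⟨m0 + m1 + 1, fun m hm T hT S hS => ?_⟩
  have h3 : (m1 : ℝ) ≤ m := Nat.cast_le.2 (by omega)
  have h4 : (0 : ℝ) < Real.sqrt m := Real.sqrt_pos.2 (Nat.cast_pos.2 (by omega))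
  have h5 : B / ε ≤ Real.sqrt m := Real.le_sqrt_of_sq_le (h1.trans h3)
  rw [div_le_iff₀ hε] at h5
  refine le_of_mul_le_mul_right ((h m (by omega) T hT S hS).trans ?_) h4
  rw [mul_right_comm]
  exact mul_le_mul_of_nonneg_right (by linarith) (Nat.cast_nonneg _)

theorem rare_of' {P : ℕ → ℕ → ℕ → Prop} (m0 : ℕ) (B : ℝ)
    (h : ∀ m ≥ m0, ∀ T, Sz m T → ∀ S : Finset ℕ, (∀ n ∈ S, n ∈ Icc 1 (V.X T) ∧ P m (V.X T) n) →
      (∑ n ∈ S, V.w T n) * m ≤ B * V.X T) : V.Rare P :=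
  rare_of (m0 + 1) B fun m hm T hT S hS => (mul_le_mul_of_nonneg_left (anA_sqrt_le (by omega))
    (sum_nonneg fun n _ => V.w0 T n)).trans (h m (by omega) T hT S hS)

theorem log_le {m T : ℕ} (h : Sz m T) (hm : 1 ≤ m) :
    Real.log (V.X T) ≤ 2 ^ (16 * m ^ 4 + 1) := by
  have h0 : 0 < V.X T := lt_of_lt_of_le (lt_of_lt_of_le two_pos (two_le_X h)) (V.le_X T)
  have h1 : (V.X T : ℝ) ≤ (T : ℝ) ^ 2 := by exact_mod_cast V.X_le T
  refine (Real.log_le_log (by exact_mod_cast h0) h1).trans ?_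
  rw [Real.log_pow, pow_succ]
  push_cast
  linarith [h.log_le hm]

/-- The weight of the multiples of members of a set of squarefree numbers. -/
theorem sum_le_dvd {T k : ℕ} {S : Finset ℕ} {ι : Type} (D : Finset ι) (f : ι → ℕ)
    (hS : ∀ n ∈ S, n ∈ Icc 1 (V.X T) ∧ ∃ i ∈ D, f i ∣ n)
    (hD : ∀ i ∈ D, Squarefree (f i) ∧ (f i).primeFactors.card ≤ k) :
    ∑ n ∈ S, V.w T n ≤ V.A * 2 ^ k * V.X T * ∑ i ∈ D, (1 / f i : ℝ) := by
  have h1 : ∑ n ∈ S, V.w T n ≤ ∑ n ∈ Icc 1 (V.X T), ∑ i ∈ D, if f i ∣ n then V.w T n else 0 := by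
    refine le_trans (sum_le_sum fun n hn => ?_) (sum_le_sum_of_subset_of_nonneg
      (fun n hn => (hS n hn).1) fun n _ _ => sum_nonneg fun i _ => ite_nonneg (V.w0 T n) le_rfl)
    obtain ⟨i, a, b⟩ := (hS n hn).2
    exact le_of_eq_of_le (if_pos b).symm (single_le_sum
      (f := fun i => if f i ∣ n then V.w T n else 0) (fun i _ => ite_nonneg (V.w0 T n) le_rfl) a)
  rw [sum_comm] at h1
  rw [mul_sum]
  refine h1.trans (sum_le_sum fun i hi => ?_)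
  rw [← sum_filter, mul_one_div]
  refine (V.dvd T _ (hD i hi).1).trans ?_
  have := V.A0
  have := (hD i hi).2
  gcongr
  exact one_le_two

end Wt

/-- Points of one box have comparable subproducts. -/
theorem kap_prod {m r : ℕ} (hm : 2 ≤ m) (hr : r ≤ m ^ 10) {x y : Fin r → ℕ} (hx : ∀ j, 0 < x j)
    (hy : ∀ j, 0 < y j) (h : ∀ j, kap m (x j) = kap m (y j)) (S : Finset (Fin r)) :
    ∏ j ∈ S, y j ≤ 2 * ∏ j ∈ S, x j := by
  have h1 : ((∏ j ∈ S, y j : ℕ) : ℝ) ≤ ∏ j ∈ S, (Real.exp (1 / (m : ℝ) ^ 11) * x j) := by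
    rw [Nat.cast_prod]
    exact prod_le_prod (fun _ _ => Nat.cast_nonneg _) fun j _ =>
      kap_ratio (by omega) (hx j) (hy j) (h j)
  have m2 : (2 : ℝ) ≤ m := by exact_mod_cast hm
  have h3 : (S.card : ℝ) ≤ (m : ℝ) ^ 10 := by
    exact_mod_cast (card_le_univ S).trans ((Fintype.card_fin r).trans_le hr)
  have h4 : Real.exp (1 / (m : ℝ) ^ 11) ^ S.card ≤ 2 := by
    rw [← Real.exp_nat_mul, ← Real.le_log_iff_exp_le two_pos]
    refine le_trans ?_ Mom.HT.log_two_ge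
    rw [mul_one_div, div_le_iff₀ (by positivity), pow_succ]
    nlinarith [pow_pos (by linarith : (0 : ℝ) < m) 10]
  rw [prod_mul_distrib, prod_const, ← Nat.cast_prod] at h1
  exact_mod_cast h1.trans (mul_le_mul_of_nonneg_right h4 (Nat.cast_nonneg _))

/-- The weighted covering lemma. -/
theorem wcover {κ : Type} {G : ℕ → Prop} (key : ℕ → κ) (Bx : ℕ → Finset ℕ) {Y : Finset ℕ}
    {w W : ℕ → ℝ} {bad : ℕ → Prop} {η : ℝ} (hη : 0 ≤ η) (w0 : ∀ n, 0 ≤ w n) (W0 : ∀ n, 0 ≤ W n)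
    (h1 : ∀ n, G n → Bx n ⊆ Y) (h2 : ∀ n, G n → ∀ a ∈ Bx n, key a = key n)
    (h3 : ∀ n a, G n → G a → key a = key n → a ∈ Bx n)
    (h4 : ∀ n, G n → ∀ a ∈ Bx n, ∀ b ∈ Bx n, w a ≤ W b)
    (h5 : ∀ n, G n → (((Bx n).filter bad).card : ℝ) ≤ η * (Bx n).card)
    {S : Finset ℕ} (hS : ∀ n ∈ S, G n ∧ bad n) : ∑ n ∈ S, w n ≤ η * ∑ n ∈ Y, W n := by
  rw [← sum_fiberwise_of_maps_to (s := S) (t := S.image key) (g := key)
    fun n hn => mem_image_of_mem _ hn]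
  refine le_trans (sum_le_sum (g := fun k => η * ∑ n ∈ Y.filter (key · = k), W n) fun k hk => ?_) ?_
  · obtain ⟨n, hn, rfl⟩ := mem_image.1 hk
    have g := (hS n hn).1
    have a0 : n ∈ Bx n := h3 n n g g rfl
    obtain ⟨b, b1, b2⟩ := exists_min_image (Bx n) W ⟨n, a0⟩
    have a1 : S.filter (key · = key n) ⊆ (Bx n).filter bad := fun a ha => mem_filter.2
      ⟨h3 n a g (hS a (mem_filter.1 ha).1).1 (mem_filter.1 ha).2, (hS a (mem_filter.1 ha).1).2⟩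
    have a2 := sum_le_card_nsmul ((Bx n).filter bad) w (W b)
      fun a ha => h4 n g a (mem_filter.1 ha).1 b b1
    have a3 := card_nsmul_le_sum (Bx n) W (W b) b2
    rw [nsmul_eq_mul] at a2 a3
    refine (sum_le_sum_of_subset_of_nonneg a1 fun a _ _ => w0 a).trans (a2.trans
      ((mul_le_mul_of_nonneg_right (h5 n g) (W0 b)).trans ?_))
    rw [mul_assoc]
    exact mul_le_mul_of_nonneg_left (a3.trans (sum_le_sum_of_subset_of_nonneg
      (fun a ha => mem_filter.2 ⟨h1 n g ha, h2 n g a ha⟩) fun a _ _ => W0 a)) hη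
  · rw [← mul_sum]
    refine mul_le_mul_of_nonneg_left ?_ hη
    exact (sum_fiberwise_eq_sum_filter Y (S.image key) key W).trans_le
      (sum_le_sum_of_subset_of_nonneg (filter_subset _ _) fun a _ _ => W0 a)

end Pool.Agent.B6.S
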