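import Pool.Agent.Lib.MP_696deb_nt.B6.SBd

/-! The bound of Hall and Tenenbaum for multiplicative weights on squarefree integers. -/

set_option autoImplicit false

open scoped Classical
open Finset Function

namespace Pool.Agent.B6.S

open Pool.Agent.Lib.MP_696deb_nt Pool.Agent.Lib.MP_696deb_nt.Mom.HT

/-- The squarefree integers up to a bound. -/
noncomputable def SQ (X : ℕ) : Finset ℕ := (Icc 1 X).filter Squarefree

/-- The product of a function over the prime factors. -/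
noncomputable def gw (h : ℕ → ℝ) (n : ℕ) : ℝ := ∏ p ∈ n.primeFactors, h p

/-- The sum of `h p / p` over the primes up to a bound. -/
noncomputable def sw (h : ℕ → ℝ) (X : ℕ) : ℝ := ∑ p ∈ Wn 0 X Nat.Prime, h p / p

theorem mem_SQ {X n : ℕ} : n ∈ SQ X ↔ (1 ≤ n ∧ n ≤ X) ∧ Squarefree n := by
  simp only [SQ, mem_filter, mem_Icc]

variable {h : ℕ → ℝ} {g : ℝ}

theorem gw_nonneg (h0 : ∀ p, 0 ≤ h p) (n : ℕ) : 0 ≤ gw h n := prod_nonneg fun p _ => h0 p

theorem gw_mul {a b : ℕ} (k : a.Coprime b) : gw h (a * b) = gw h a * gw h b := by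
  rw [gw, k.primeFactors_mul, prod_union k.disjoint_primeFactors]
  rfl

theorem gw_prime {p : ℕ} (hp : p.Prime) : gw h p = h p := by
  rw [gw, hp.primeFactors, prod_singleton]

theorem sw_mono (h0 : ∀ p, 0 ≤ h p) {X Y : ℕ} (k : X ≤ Y) : sw h X ≤ sw h Y :=
  sum_le_sum_of_subset_of_nonneg (fun _ hp => mem_Wn.2 ⟨(mem_Wn.1 hp).1,
    (mem_Wn.1 hp).2.1.trans k, (mem_Wn.1 hp).2.2⟩) fun p _ _ => div_nonneg (h0 p) p.cast_nonneg

theorem sum_gw_div (h0 : ∀ p, 0 ≤ h p) (X : ℕ) :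
    ∑ n ∈ SQ X, gw h n / n ≤ Real.exp (sw h X) := by
  have f0 : ∀ p : ℕ, 0 ≤ h p / p := fun p => div_nonneg (h0 p) p.cast_nonneg
  calc ∑ n ∈ SQ X, gw h n / n = ∑ n ∈ SQ X, ∏ p ∈ n.primeFactors, h p / p :=
        sum_congr rfl fun n hn => by
          rw [prod_div_distrib, ← Nat.cast_prod,
            Nat.prod_primeFactors_of_squarefree (mem_SQ.1 hn).2, gw]
    _ = ∑ S ∈ (SQ X).image Nat.primeFactors, ∏ p ∈ S, h p / p :=
        (sum_image (f := fun S : Finset ℕ => ∏ p ∈ S, h p / p) fun a ha b hb e => by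
          rw [← Nat.prod_primeFactors_of_squarefree (mem_SQ.1 ha).2, e,
            Nat.prod_primeFactors_of_squarefree (mem_SQ.1 hb).2]).symm
    _ ≤ ∑ S ∈ (Wn 0 X Nat.Prime).powerset, ∏ p ∈ S, h p / p := by
        refine sum_le_sum_of_subset_of_nonneg (fun S hS => ?_) fun S _ _ =>
          prod_nonneg fun p _ => f0 p
        obtain ⟨n, hn, rfl⟩ := mem_image.1 hS
        exact mem_powerset.2 fun p hp => mem_Wn.2 ⟨(Nat.prime_of_mem_primeFactors hp).pos,
          (Nat.le_of_mem_primeFactors hp).trans (mem_SQ.1 hn).1.2, Nat.prime_of_mem_primeFactors hp⟩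
    _ = ∏ p ∈ Wn 0 X Nat.Prime, (1 + h p / p) := (prod_one_add _).symm
    _ ≤ _ := by
        rw [sw, Real.exp_sum]
        exact prod_le_prod (fun p _ => by linarith [f0 p]) fun p _ => by
          linarith [Real.add_one_le_exp (h p / p)]

theorem sum_gw_log (h0 : ∀ p, 0 ≤ h p) (h1 : ∀ p, h p ≤ g) (Z : ℕ) :
    ∑ n ∈ SQ Z, gw h n * Real.log n ≤ 2 * g * Z * ∑ n ∈ SQ Z, gw h n / n := by
  have g0 : 0 ≤ g := (h0 0).trans (h1 0)
  let f : (Σ _ : ℕ, ℕ) → ℝ := fun x => g * gw h (x.1 / x.2) * Real.log x.2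
  let T : Finset (Σ _ : ℕ, ℕ) := (SQ Z).sigma fun k => (Ioc 0 ⌊(Z : ℝ) / k⌋₊).filter Nat.Prime
  let e : (Σ _ : ℕ, ℕ) → (Σ _ : ℕ, ℕ) := fun x => ⟨x.1 * x.2, x.2⟩
  have f0 : ∀ x, 0 ≤ f x := fun x =>
    mul_nonneg (mul_nonneg g0 (gw_nonneg h0 _)) (Real.log_natCast_nonneg _)
  calc ∑ n ∈ SQ Z, gw h n * Real.log n ≤ ∑ n ∈ SQ Z, ∑ p ∈ n.primeFactors, f ⟨n, p⟩ := by
        refine sum_le_sum fun n hn => ?_
        have k1 : Real.log n = ∑ p ∈ n.primeFactors, Real.log p := by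
          conv_lhs => rw [← Nat.prod_primeFactors_of_squarefree (mem_SQ.1 hn).2]
          rw [Nat.cast_prod, Real.log_prod fun p hp =>
            Nat.cast_ne_zero.2 (Nat.prime_of_mem_primeFactors hp).ne_zero]
        rw [k1, mul_sum]
        refine sum_le_sum fun p hp => mul_le_mul_of_nonneg_right ?_ (Real.log_natCast_nonneg _)
        have pp := Nat.prime_of_mem_primeFactors hp
        obtain ⟨k, rfl⟩ := Nat.dvd_of_mem_primeFactors hp
        rw [gw_mul (Nat.coprime_of_squarefree_mul (mem_SQ.1 hn).2), gw_prime pp,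
          Nat.mul_div_cancel_left k pp.pos]
        exact mul_le_mul_of_nonneg_right (h1 p) (gw_nonneg h0 _)
    _ = ∑ x ∈ (SQ Z).sigma fun n => n.primeFactors, f x := sum_sigma' _ _ _
    _ ≤ ∑ x ∈ T.image e, f x := by
        refine sum_le_sum_of_subset_of_nonneg (fun x hx => ?_) fun x _ _ => f0 x
        obtain ⟨n, p⟩ := x
        obtain ⟨hn, hp⟩ := mem_sigma.1 hx
        obtain ⟨⟨k1, k2⟩, k3⟩ := mem_SQ.1 hn
        have pp := Nat.prime_of_mem_primeFactors hp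
        obtain ⟨k, rfl⟩ : ∃ k, n = k * p :=
          exists_eq_mul_left_of_dvd (Nat.dvd_of_mem_primeFactors hp)
        have k0 : 0 < k := Nat.pos_of_mul_pos_right k1
        refine mem_image.2 ⟨⟨k, p⟩, mem_sigma.2 ⟨mem_SQ.2 ⟨⟨k0,
          (Nat.le_mul_of_pos_right k pp.pos).trans k2⟩, k3.of_mul_left⟩,
          mem_filter.2 ⟨mem_Ioc.2 ⟨pp.pos, ?_⟩, pp⟩⟩, rfl⟩
        refine Nat.le_floor ((le_div_iff₀ (by exact_mod_cast k0)).2 ?_)
        rw [mul_comm]
        exact_mod_cast k2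
    _ ≤ ∑ x ∈ T, f (e x) := sum_image_le_of_nonneg fun x _ => f0 x
    _ = ∑ k ∈ SQ Z, ∑ p ∈ (Ioc 0 ⌊(Z : ℝ) / k⌋₊).filter Nat.Prime, f (e ⟨k, p⟩) :=
        (sum_sigma' _ _ fun k p => f (e ⟨k, p⟩)).symm
    _ ≤ ∑ k ∈ SQ Z, 2 * g * Z * (gw h k / k) := by
        refine sum_le_sum fun k _ => ?_
        have k1 : ∑ p ∈ (Ioc 0 ⌊(Z : ℝ) / k⌋₊).filter Nat.Prime, f (e ⟨k, p⟩) =
            g * gw h k * Chebyshev.theta ((Z : ℝ) / k) := by
          rw [Chebyshev.theta, mul_sum]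
          refine sum_congr rfl fun p hp => ?_
          simp only [f, e, Nat.mul_div_cancel k (mem_filter.1 hp).2.pos]
        have k2 := Chebyshev.theta_le_log4_mul_x (x := (Z : ℝ) / k) (by positivity)
        have k3 : Real.log 4 ≤ 2 := by
          rw [show (4 : ℝ) = 2 ^ 2 by norm_num, Real.log_pow]
          push_cast
          linarith [log_two_le]
        rw [k1]
        exact (mul_le_mul_of_nonneg_left (k2.trans (mul_le_mul_of_nonneg_right k3 (by positivity)))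
          (mul_nonneg g0 (gw_nonneg h0 k))).trans_eq (by ring)
    _ = _ := by rw [mul_sum]

/-- The bound of Hall and Tenenbaum. -/
theorem ht (h0 : ∀ p, 0 ≤ h p) (h1 : ∀ p, h p ≤ g) (Z : ℕ) :
    Real.log Z * ∑ n ∈ SQ Z, gw h n ≤ (1 + 2 * g) * Z * Real.exp (sw h Z) := by
  have g0 : 0 ≤ g := (h0 0).trans (h1 0)
  have k1 := sum_gw_log h0 h1 Z
  have k2 : Real.log Z * ∑ n ∈ SQ Z, gw h n ≤
      ∑ n ∈ SQ Z, gw h n * Real.log n + Z * ∑ n ∈ SQ Z, gw h n / n := by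
    rw [mul_sum, mul_sum, ← sum_add_distrib]
    refine sum_le_sum fun n hn => ?_
    obtain ⟨⟨a1, a2⟩, -⟩ := mem_SQ.1 hn
    have n0 : (0 : ℝ) < n := by exact_mod_cast a1
    have Z0 : (0 : ℝ) < Z := by exact_mod_cast a1.trans a2
    have a3 := Real.log_le_sub_one_of_pos (div_pos Z0 n0)
    rw [Real.log_div Z0.ne' n0.ne'] at a3
    exact (mul_le_mul_of_nonneg_right (show _ ≤ Real.log n + Z / n by linarith)
      (gw_nonneg h0 n)).trans_eq (by ring)
  refine le_trans ?_ (mul_le_mul_of_nonneg_left (sum_gw_div h0 Z) (by positivity))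
  linarith

end Pool.Agent.B6.S
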