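import Pool.Agent.Lib.MP_696deb_nt.TF.E0
import Pool.Agent.Lib.MP_696deb_nt.TF.HT

/-! Exponential moments of a weight and masses of primes in a given set. -/

set_option autoImplicit false

open scoped Classical
open Finset Function

namespace Pool.Agent.B6.S

open Pool.Agent.Lib.MP_696deb_nt Pool.Agent.Lib.MP_696deb_nt.Sm Pool.Agent.Lib.MP_696deb_nt.Sa

/-- The integer `e` is a square modulo `p`. -/
def Spl (e : ℤ) (p : ℕ) : Prop := IsSquare (e : ZMod p)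

/-- The masses of the types among the primes with the property `P`. -/
def Cv.Ms (C : Cv) (P : ℕ → Prop) (al : ℝ) : Prop := ∃ (z0 c1 : ℕ) (c0 : ℝ),
  ∀ z X : ℕ, z0 ≤ z → 2 ≤ X →
    al * (LL X - 2 * LL z) - c0 ≤ ms (Wn z X fun p => C.Ty2 p ∧ P p) ∧
    ms (Wn z X fun p => C.Ty1 p ∧ P p) ≤ al * LL X / 3 + LL z + c0 ∧
    ∀ (D : ℤ) (c : GQ → C.A) (B : ℝ), c ∈ C.U D → c ≠ 0 → C.KD c B → 1 ≤ B →
      (c1 * B) ^ 64 ≤ z → al * LL X / 3 - 2 * LL z - c0 ≤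
        ms (Wn z X fun p => (C.Ty2 p ∧ C.sy c p = 1) ∧ P p)

theorem LL_nonneg {z : ℕ} (h : 3 ≤ z) : 0 ≤ LL z := Real.log_nonneg (by
  rw [Real.le_log_iff_exp_le (by positivity)]
  exact (Real.exp_one_lt_d9.le.trans (by norm_num)).trans (Nat.cast_le.2 h : ((3 : ℕ) : ℝ) ≤ z))

theorem Cv.ms_all (C : Cv) : C.Ms (fun _ => True) (1 / 2) := by
  obtain ⟨z0, -, h⟩ := C.masses
  refine ⟨z0 + 3, 6, 93, fun z X hz hX => ?_⟩
  obtain ⟨h1, h2, h3⟩ := h z X (by omega) hX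
  have h4 := LL_nonneg (z := z) (by omega)
  simp only [and_true]
  refine ⟨by convert (show 1 / 2 * (LL X - 2 * LL z) - 93 ≤ ms (Wn z X C.Ty2) by linarith),
    by convert (show ms (Wn z X C.Ty1) ≤ 1 / 2 * LL X / 3 + LL z + 93 by linarith),
    fun D c B a1 a2 a3 a4 a5 => ?_⟩
  push_cast at a5
  linarith [h3 D c B a1 a2 a3 a4 ((pow_le_pow_right₀ (by linarith) (by norm_num)).trans a5)]

namespace Wt

variable {C : Cv}

/-- The bound for the exponential moments of a weight. -/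
def HT (V : Wt C) (P : ℕ → Prop) : Prop := ∃ (K : ℝ) (T0 : ℕ), 0 ≤ K ∧ ∀ T ≥ T0, ∀ d : ℕ, 1 ≤ d →
  d ^ 8 ≤ V.X T → ∀ lam : ℕ → ℝ, (∀ p, 0 ≤ lam p) → (∀ p, lam p ≤ 2) →
    ∑ j ∈ (Icc 1 (V.X T / d)).filter fun j => Squarefree (d * j), V.w T (d * j) * gw lam j ≤
      K * 2 ^ d.primeFactors.card / d * V.X T *
        Real.exp (2 * ∑ p ∈ Wn 0 (V.X T) fun p => p.Prime ∧ P p, (lam p - 1) / p)

variable {V : Wt C} {P : ℕ → Prop}

/-- The bound of Chernoff for two disjoint sets of primes. -/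
theorem HT.chern (h : V.HT P) : ∃ (K : ℝ) (T0 : ℕ), 0 ≤ K ∧ ∀ T ≥ T0, ∀ d : ℕ, 1 ≤ d →
    d ^ 8 ≤ V.X T → ∀ (A B : Finset ℕ) (a b Λ : ℝ), Disjoint A B →
    (∀ p ∈ A ∪ B, p.Prime ∧ p ≤ V.X T) → 0 ≤ a → a ≤ 2 → 0 ≤ b → b ≤ 2 → ∀ S : Finset ℕ,
    (∀ j ∈ S, j ∈ Icc 1 (V.X T / d) ∧ Squarefree (d * j) ∧
      Λ ≤ a ^ (j.primeFactors ∩ A).card * b ^ (j.primeFactors ∩ B).card) →
    (∑ j ∈ S, V.w T (d * j)) * Λ ≤ K * 2 ^ d.primeFactors.card / d * V.X T *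
      Real.exp (2 * ((a - 1) * ms (A.filter P) + (b - 1) * ms (B.filter P))) := by
  obtain ⟨K, T0, K0, h⟩ := h
  refine ⟨K, T0, K0, fun T hT d d1 d2 A B a b Λ hd hp a0 a2 b0 b2 S hS => ?_⟩
  obtain ⟨lam, hl⟩ : ∃ lam : ℕ → ℝ, ∀ p, lam p = (if p ∈ A then a else 1) *
    if p ∈ B then b else 1 := ⟨_, fun _ => rfl⟩
  have l0 : ∀ p, 0 ≤ lam p ∧ lam p ≤ 2 ∧
      lam p - 1 = (if p ∈ A then a - 1 else 0) + if p ∈ B then b - 1 else 0 := fun p => by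
    rw [hl]
    split_ifs with k1 k2
    · exact absurd k2 (disjoint_left.1 hd k1)
    all_goals refine ⟨by linarith, by linarith, by ring⟩
  have e1 : ∀ (A : Finset ℕ) (a : ℝ), (∀ p ∈ A, p.Prime ∧ p ≤ V.X T) →
      ∑ p ∈ Wn 0 (V.X T) fun p => p.Prime ∧ P p, (if p ∈ A then a else 0) / (p : ℝ) =
        a * ms (A.filter P) := fun A a k => by
    rw [ms, mul_sum]
    symm
    refine sum_subset_zero_on_sdiff (fun p hp => ?_) (fun p hp => ?_) fun p hp => ?_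
    · obtain ⟨k1, k2⟩ := mem_filter.1 hp
      exact mem_Wn.2 ⟨(k p k1).1.pos, (k p k1).2, (k p k1).1, k2⟩
    · obtain ⟨k1, k2⟩ := mem_sdiff.1 hp
      rw [if_neg fun e => k2 (mem_filter.2 ⟨e, (mem_Wn.1 k1).2.2.2⟩), zero_div]
    · rw [if_pos (mem_filter.1 hp).1, mul_one_div]
  have h1 := h T hT d d1 d2 lam (fun p => (l0 p).1) fun p => (l0 p).2.1
  simp only [fun p => (l0 p).2.2, add_div, sum_add_distrib] at h1
  rw [e1 A _ fun p k => hp p (mem_union_left _ k), e1 B _ fun p k => hp p (mem_union_right _ k)]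
    at h1
  refine le_trans ?_ ((sum_le_sum_of_subset_of_nonneg (s := S) (fun j hj => mem_filter.2
    ⟨(hS j hj).1, (hS j hj).2.1⟩) fun j _ _ =>
      mul_nonneg (V.w0 _ _) (gw_nonneg (fun p => (l0 p).1) j)).trans h1)
  rw [sum_mul]
  refine sum_le_sum fun j hj => mul_le_mul_of_nonneg_left ((hS j hj).2.2.trans_eq ?_) (V.w0 _ _)
  simp only [gw, hl, prod_mul_distrib, prod_ite_mem, prod_const]

end Wt

end Pool.Agent.B6.S
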