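import Pool.Agent.Lib.MP_696deb_nt.TF.FR

/-! The primes that split in a quadratic field have at least half of the mass. -/

set_option autoImplicit false

open scoped Classical NumberTheorySymbols
open Finset Function Filter Topology

namespace Pool.Agent.B6.S

open Pool.Agent.Lib.MP_696deb_nt Pool.Agent.Lib.MP_696deb_nt.Sm Pool.Agent.Lib.MP_696deb_nt.Sa
open Pool.Agent.Lib.MP_696deb_nt.Mom.HT Pool.Agent.Lib.MP_696deb_nt.Den

theorem jz_mod (e : ℤ) (n : ℕ) : jz e (n % (4 * e.natAbs)) = jz e n :=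
  Periodic.map_mod_nat (f := jz e) (anc_per e) n

/-- The quadratic character of an integer as a character of Dirichlet. -/
noncomputable def dch (e : ℤ) [NeZero (4 * e.natAbs)] : DirichletCharacter ℂ (4 * e.natAbs) where
  toFun a := if IsUnit a then (jz e a.val : ℂ) else 0
  map_one' := by
    rw [if_pos isUnit_one, ← Nat.cast_one (R := ZMod _), ZMod.val_natCast, jz_mod,
      anc_odd odd_one, jacobiSym.one_right, Int.cast_one]
  map_mul' a b := by
    simp only [IsUnit.mul_iff, ZMod.val_mul, jz_mod, anc_mul]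
    by_cases ha : IsUnit a <;> by_cases hb : IsUnit b <;> simp [ha, hb]
  map_nonunit' a h := if_neg h

theorem dch_apply (e : ℤ) [NeZero (4 * e.natAbs)] (n : ℕ) :
    dch e n = ((if n.Coprime (4 * e.natAbs) then jz e n else 0 : ℤ) : ℝ) := by
  change (if IsUnit (n : ZMod (4 * e.natAbs)) then (jz e (n : ZMod (4 * e.natAbs)).val : ℂ) else 0) = _
  simp only [ZMod.isUnit_iff_coprime, ZMod.val_natCast, jz_mod]
  split_ifs <;> simp

theorem inv_le_exp {y : ℝ} (h : |y| ≤ 1 / 2) : |(1 - y)⁻¹| ≤ Real.exp (y + 2 * y ^ 2) := by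
  obtain ⟨h1, h2⟩ := abs_le.1 h
  rw [abs_of_pos (inv_pos.2 (by linarith))]
  refine le_trans ?_ (Real.add_one_le_exp _)
  rw [inv_le_iff_one_le_mul₀ (by linarith)]
  nlinarith [sq_nonneg y]

/-- The sums of a real character over the primes are bounded below. -/
theorem char_lower {N : ℕ} [NeZero N] {χ : DirichletCharacter ℂ N} (hχ : χ ≠ 1) {f : ℕ → ℝ}
    (hf : ∀ n : ℕ, χ n = f n) (f1 : ∀ n, |f n| ≤ 1) : ∃ c : ℝ, ∀ L : ℝ, 1 / 2 ≤ L → ∀ b : ℝ,
      (∀ᶠ n : ℕ in atTop, ∑ p ∈ n.primesBelow, f p * xs L p ≤ b) → c ≤ b := by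
  have hc : Continuous fun x : ℝ => ‖χ.LFunction x‖ :=
    ((χ.differentiable_LFunction hχ).continuous.comp Complex.continuous_ofReal).norm
  obtain ⟨x0, x1, x2⟩ := (isCompact_Icc (a := (1 : ℝ)) (b := 3)).exists_isMinOn
    ⟨1, by norm_num⟩ hc.continuousOn
  have p0 : 0 < ‖χ.LFunction x0‖ :=
    norm_pos_iff.2 (χ.LFunction_ne_zero_of_one_le_re (.inl hχ) (by simpa using x1.1))
  refine ⟨Real.log ‖χ.LFunction x0‖ - 4, fun L hL b hb => ?_⟩
  have L0 : 0 < L := by linarith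
  have L1 : 0 < 1 / L := by positivity
  have L2 : 1 / L ≤ 2 := by rw [div_le_iff₀ L0]; linarith
  have s1 : 1 < ((1 + 1 / L : ℝ) : ℂ).re := by rw [Complex.ofReal_re]; linarith
  have h1 : ‖χ.LFunction x0‖ ≤ ‖χ.LFunction (1 + 1 / L : ℝ)‖ :=
    x2 (show (1 + 1 / L : ℝ) ∈ Set.Icc 1 3 from ⟨by linarith, by linarith⟩)
  rw [χ.LFunction_eq_LSeries s1] at h1
  rw [sub_le_iff_le_add, Real.log_le_iff_le_exp p0]
  refine h1.trans (le_of_tendsto (χ.LSeries_eulerProduct s1).norm (hb.mono fun n hn => ?_))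
  have h2 : ∀ p ∈ n.primesBelow, |f p * xs L p| ≤ 1 / p := fun p hp => by
    rw [abs_mul, abs_of_nonneg (xs_nonneg _ _)]
    exact (mul_le_of_le_one_left (xs_nonneg _ _) (f1 p)).trans
      (xs_le L0 (Nat.prime_of_mem_primesBelow hp).pos)
  have h3 : ∑ p ∈ n.primesBelow, (f p * xs L p) ^ 2 ≤ 2 := by
    refine le_trans (sum_le_sum fun p hp => ?_) ((sum_le_sum_of_subset_of_nonneg (t := Icc 1 n)
      (fun p hp => mem_Icc.2 ⟨(Nat.prime_of_mem_primesBelow hp).pos,
        (Nat.lt_of_mem_primesBelow hp).le⟩) fun _ _ _ => by positivity).trans (sum_inv_sq_le n))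
    rw [← sq_abs, ← one_div_pow]
    exact pow_le_pow_left₀ (abs_nonneg _) (h2 p hp) 2
  rw [norm_prod]
  refine (prod_le_prod (fun _ _ => norm_nonneg _) fun p hp => show _ ≤
    Real.exp (f p * xs L p + 2 * (f p * xs L p) ^ 2) from ?_).trans ?_
  · rw [hf, ← Complex.ofReal_neg, ← Complex.ofReal_natCast, ← Complex.ofReal_cpow p.cast_nonneg,
      ← Complex.ofReal_mul, ← Complex.ofReal_one, ← Complex.ofReal_sub, ← Complex.ofReal_inv,
      Complex.norm_real, Real.norm_eq_abs]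
    exact inv_le_exp ((h2 p hp).trans (one_div_le_one_div_of_le two_pos
      (by exact_mod_cast (Nat.prime_of_mem_primesBelow hp).two_le)))
  · rw [← Real.exp_sum, sum_add_distrib, ← mul_sum]
    exact Real.exp_le_exp.2 (by linarith)

theorem sum_xs_primes {X : ℕ} (hX : 2 ≤ X) (n : ℕ) :
    ∑ p ∈ n.primesBelow, xs (Real.log X) p ≤ LL X + 4 := by
  have hL2 : 1 / 2 ≤ Real.log X :=
    log_two_ge.trans (Real.log_le_log two_pos (by exact_mod_cast hX))
  have hL : 0 < Real.log X := by linarith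
  have pp : ∀ p ∈ n.primesBelow, p.Prime := fun p hp => Nat.prime_of_mem_primesBelow hp
  have h1 := prod_xs_le hL (P := ∏ p ∈ n.primesBelow, p)
    (squarefree_prod_of_pairwise_isCoprime (fun p hp q hq e => Nat.coprime_iff_isRelPrime.1
      ((Nat.coprime_primes (pp p hp) (pp q hq)).2 e)) fun p hp => (pp p hp).prime.squarefree)
  rw [Nat.primeFactors_prod pp] at h1
  have x0 := xs_nonneg (Real.log X)
  have h2 := Real.log_le_log (prod_pos fun p _ => by linarith [x0 p]) (h1.trans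
    (show _ ≤ 3 * Real.log X by linarith))
  rw [Real.log_prod fun p _ => by linarith [x0 p], Real.log_mul (by norm_num) hL.ne'] at h2
  have h3 : ∑ p ∈ n.primesBelow, xs (Real.log X) p ^ 2 ≤ 2 := by
    refine le_trans (sum_le_sum fun p hp => ?_) ((sum_le_sum_of_subset_of_nonneg (t := Icc 1 n)
      (fun p hp => mem_Icc.2 ⟨(pp p hp).pos, (Nat.lt_of_mem_primesBelow hp).le⟩)
      fun _ _ _ => by positivity).trans (sum_inv_sq_le n))
    rw [← one_div_pow]
    exact pow_le_pow_left₀ (x0 p) (xs_le hL (pp p hp).pos) 2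
  have h4 := sum_le_sum (s := n.primesBelow) fun p _ => le_log_add (x0 p)
  rw [sum_add_distrib] at h4
  rw [LL]
  linarith [Real.log_le_sub_one_of_pos (show (0 : ℝ) < 3 by norm_num)]

theorem int_sq_mul (e : ℤ) : ∃ k d : ℤ, k ^ 2 * d = e ∧ Squarefree d := by
  obtain ⟨a, b, h1, h2⟩ := Nat.sq_mul_squarefree e.natAbs
  have h3 : (b : ℤ) ^ 2 * a = e.natAbs := by exact_mod_cast h1
  rcases Int.natAbs_eq e with h | h
  · exact ⟨b, a, h3.trans h.symm, Int.squarefree_natCast.2 h2⟩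
  · exact ⟨b, -a, by rw [h, ← h3, mul_neg], Int.squarefree_natAbs.1 (by simpa using h2)⟩

/-- The lower bound for the mass of the split primes. -/
theorem spl_lower {e : ℤ} (he : ¬ IsSquare e) : ∃ c : ℝ, ∀ X : ℕ, 2 ≤ X →
    LL X - c ≤ 2 * ms (Wn 0 X fun p => p.Prime ∧ Spl e p) := by
  obtain ⟨k, d, rfl, hd⟩ := int_sq_mul e
  have : NeZero (4 * d.natAbs) := ⟨mul_ne_zero four_ne_zero (Int.natAbs_ne_zero.2 hd.ne_zero)⟩
  obtain ⟨a, a1, a2⟩ := exists_jz_neg hd fun h => he (by rw [h, mul_one]; exact IsSquare.sq k)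
  obtain ⟨f, hf⟩ : ∃ f : ℕ → ℝ,
    ∀ n, f n = (if n.Coprime (4 * d.natAbs) then jz d n else 0 : ℤ) := ⟨_, fun _ => rfl⟩
  have f1 : ∀ n, |f n| ≤ 1 := fun n => by
    rw [hf]
    split_ifs
    · exact_mod_cast anc_abs d n
    · simp
  obtain ⟨c, hc⟩ := char_lower (χ := dch d) (f := f) (fun h => by
    have k := dch_apply d a
    rw [h, MulChar.one_apply ((ZMod.isUnit_iff_coprime _ _).2 a1), if_pos a1, a2] at k
    norm_num at k) (fun n => by rw [hf, dch_apply]) f1
  refine ⟨32 - c, fun X hX => ?_⟩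
  have hL2 : 1 / 2 ≤ Real.log X :=
    log_two_ge.trans (Real.log_le_log two_pos (by exact_mod_cast hX))
  have hL : 0 < Real.log X := by linarith
  have x0 := xs_nonneg (Real.log X)
  have h1 : LL X - 14 ≤ ∑ p ∈ Wn 0 X Nat.Prime, xs (Real.log X) p := by
    have b1 := sum_le_sum (s := Wn 0 X Nat.Prime) fun p hp =>
      inv_le_xs_add (L := Real.log X) (mem_Wn.1 hp).1
    rw [sum_add_distrib, ← sum_div] at b1
    have b2 := div_le_div_of_nonneg_right (sum_log_div_le (P := Wn 0 X Nat.Prime) (X := X)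
      (by omega) fun p hp => ⟨(mem_Wn.1 hp).2.2, (mem_Wn.1 hp).2.1⟩) hL.le
    have b3 : (Real.log X + 6) / Real.log X ≤ 13 := by rw [div_le_iff₀ hL]; linarith
    have b4 : LL X - 1 ≤ ∑ p ∈ Wn 0 X Nat.Prime, (1 / p : ℝ) := by
      rw [LL, Wn]
      convert mass_ge hX
    linarith
  have h2 : ∑ p ∈ Wn 0 X Nat.Prime, (1 + f p) * xs (Real.log X) p ≤
      2 * ms (Wn 0 X fun p => p.Prime ∧ Spl (k ^ 2 * d) p) := by
    rw [← Wn_filter, ms, sum_filter, mul_sum]
    refine sum_le_sum fun p hp => ?_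
    have := Fact.mk (mem_Wn.1 hp).2.2
    split_ifs with s
    · exact mul_le_mul (by linarith [(abs_le.1 (f1 p)).2]) (xs_le hL (mem_Wn.1 hp).1) (x0 p)
        two_pos.le
    · have s1 : ¬ IsSquare (d : ZMod p) := fun h => s (by
        rw [Spl]
        push_cast
        exact (IsSquare.sq _).mul h)
      have s2 : jz d p = -1 := by
        rw [anc_odd (this.out.odd_of_ne_two fun h => s1 (by
          subst h
          exact FiniteField.isSquare_of_char_two (ZMod.ringChar_zmod_n 2) _)),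
          ← jacobiSym.legendreSym.to_jacobiSym]
        exact (legendreSym.eq_neg_one_iff p).2 s1
      rw [hf, if_pos (anc_cop s2), s2]
      simp
  suffices h : c ≤ 2 * ms (Wn 0 X fun p => p.Prime ∧ Spl (k ^ 2 * d) p) - LL X + 32 by linarith
  refine hc _ hL2 _ ((eventually_gt_atTop X).mono fun n hn => ?_)
  have h3 : Wn 0 X Nat.Prime ⊆ n.primesBelow := fun p hp =>
    Nat.mem_primesBelow.2 ⟨(mem_Wn.1 hp).2.1.trans_lt hn, (mem_Wn.1 hp).2.2⟩
  have h4 := sum_xs_primes hX n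
  have h5 := sum_le_sum (s := n.primesBelow \ Wn 0 X Nat.Prime) fun p _ =>
    mul_le_of_le_one_left (x0 p) (abs_le.1 (f1 p)).2
  simp only [add_mul, one_mul, sum_add_distrib] at h2
  rw [← sum_sdiff h3] at h4 ⊢
  linarith

end Pool.Agent.B6.S
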