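import Pool.Agent.Lib.MP_696deb_nt.TF.F0

/-! Three rare events for a weight with bounded exponential moments. -/

set_option autoImplicit false

open scoped Classical
open Finset Function

namespace Pool.Agent.B6.S

open Pool.Agent.Lib.MP_696deb_nt Pool.Agent.Lib.MP_696deb_nt.Sm Pool.Agent.Lib.MP_696deb_nt.Sa

theorem Wn_filter (z X : ℕ) (Q P : ℕ → Prop) :
    (Wn z X Q).filter P = Wn z X fun p => Q p ∧ P p := by
  ext p
  simp only [mem_filter, mem_Wn, and_assoc]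

theorem pow_le_exp {a : ℝ} (h0 : 0 ≤ a) (h : a ≤ 2) (k : ℕ) : a ^ k ≤ Real.exp k := by
  rw [← Real.exp_one_pow]
  exact pow_le_pow_left₀ h0 (by linarith [Real.add_one_le_exp 1]) _

/-- The last step in all the estimates. -/
theorem fr_end {s a K X E c : ℝ} {k m : ℕ} (s0 : 0 ≤ s) (a0 : 1 / 2 ≤ a) (K0 : 0 ≤ K * X)
    (h : s * a ^ k ≤ K * X * Real.exp E) (hE : E + k + m ≤ c) :
    s * m ≤ K * Real.exp c * X := by
  have a1 : 0 < a := by linarith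
  have h1 : (1 : ℝ) ≤ a ^ k * Real.exp k := by
    refine le_trans ?_ (mul_le_mul_of_nonneg_left (pow_le_exp two_pos.le le_rfl k) (by positivity))
    rw [← mul_pow]
    exact one_le_pow₀ (by linarith)
  have h2 : (m : ℝ) ≤ Real.exp m := by linarith [Real.add_one_le_exp (m : ℝ)]
  calc s * m ≤ s * (a ^ k * Real.exp k) * Real.exp m :=
        mul_le_mul (le_mul_of_one_le_right s0 h1) h2 m.cast_nonneg (by positivity)
    _ ≤ K * X * Real.exp E * Real.exp k * Real.exp m := by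
        rw [← mul_assoc]
        gcongr
    _ = K * X * Real.exp (E + k + m) := by rw [Real.exp_add, Real.exp_add]; ring
    _ ≤ K * X * Real.exp c := mul_le_mul_of_nonneg_left (Real.exp_le_exp.2 hE) K0
    _ = _ := by ring

theorem fr_thr {m B d : ℕ} (hm : 2 ≤ m) (hB : B ≤ m) (hd : d ≤ YY m ^ m) :
    (B * d ^ 2) ^ 64 ≤ zz m := by
  rw [anc_YY] at hd
  have h1 : B ≤ 2 ^ m ^ 25 :=
    hB.trans ((Nat.le_self_pow (by norm_num) m).trans Nat.lt_two_pow_self.le)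
  have h2 : 192 * m ^ 25 ≤ aw m 1 := by
    have a1 : 2 ^ 24 ≤ m ^ 24 := Nat.pow_le_pow_left hm 24
    calc 192 * m ^ 25 ≤ m ^ 24 * m ^ 25 := Nat.mul_le_mul_right _ (by omega)
      _ = m * ((m ^ 24) ^ 2 * 1) := by ring
      _ ≤ _ := Nat.mul_le_mul_left _ (Nat.mul_le_mul_left _ Nat.one_le_two_pow)
  refine (Nat.pow_le_pow_left (Nat.mul_le_mul h1 (Nat.pow_le_pow_left hd 2)) 64).trans ?_
  rw [← pow_mul, ← pow_add, ← pow_mul]
  exact Nat.pow_le_pow_right two_pos (le_trans (by omega)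
    (h2.trans (aw_mono (by omega) (by norm_num))))

theorem fr_eight {m T d : ℕ} (hm : 22 ≤ m) (h : Sz m T) (hd : d ≤ YY m ^ m) : d ^ 8 ≤ T := by
  have h1 := fr_thr (B := 1) (by omega) (by omega) hd
  rw [one_mul, ← pow_mul] at h1
  rcases d.eq_zero_or_pos with rfl | k
  · simp
  · exact ((Nat.pow_le_pow_right k (by norm_num)).trans h1).trans (zz_le hm h)

theorem fr_pow {m : ℕ} {a : ℝ} (h : a ≤ m) : a * m ≤ (m : ℝ) ^ 2 ∧ a * (m : ℝ) ^ 2 ≤ (m : ℝ) ^ 3 ∧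
    a * (m : ℝ) ^ 3 ≤ (m : ℝ) ^ 4 := by
  have k : ∀ k : ℕ, a * (m : ℝ) ^ k ≤ (m : ℝ) ^ (k + 1) := fun k => by
    rw [pow_succ']
    exact mul_le_mul_of_nonneg_right h (by positivity)
  exact ⟨by simpa using k 1, k 2, k 3⟩

namespace Wt

variable {C : Cv} {V : Wt C} {P : ℕ → Prop} {al : ℝ}

theorem le_T {m T : ℕ} (hm : 22 ≤ m) (h : Sz m T) : m ≤ T :=
  ((le_YY m).trans (YY_le (by omega) 3)).trans (zz_le hm h)

theorem LL_X {m T : ℕ} (h : Sz m T) : (m : ℝ) ^ 4 / 2 - 1 ≤ LL (V.X T) := by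
  exact_mod_cast LL_ge (h.1.trans (V.le_X T))

theorem r6k (h : V.HT P) (hM : C.Ms P al) (a1 : 1 / 4 ≤ al) {k : ℕ} (hk : k < 3) :
    V.Rare fun m _ n => Squarefree n ∧ (n.primeFactors ∩ C.Wi m k).card < m ^ 2 := by
  obtain ⟨K, T0, K0, h⟩ := h.chern
  obtain ⟨z0, c1, c0, hM⟩ := hM
  refine rare_of' (T0 + z0 + 22) (K * Real.exp (c0 + 1)) fun m hm T hT S hS => ?_
  have m1 : 1 ≤ m := by omega
  have b1 : 2 ^ bw m k ≤ V.X T := ((Nat.pow_le_pow_right two_pos ((bw_le m1 k).trans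
    (aw_mono m1 hk))).trans (zz_le (by omega) hT)).trans (V.le_X T)
  have h1 := h T (le_trans (by omega) (le_T (by omega) hT)) 1 le_rfl
    (le_trans (by simpa using Nat.one_le_two_pow) b1) (C.Wi m k) ∅ (1 / 2) 1 ((1 / 2) ^ m ^ 2)
    (disjoint_empty_right _) (fun p hp => by
      rw [union_empty] at hp
      exact ⟨(mem_Wn.1 hp).2.2.1.1, (mem_Wn.1 hp).2.1.trans b1⟩)
    (by norm_num) (by norm_num) zero_le_one one_le_two S fun j hj => by
      rw [Nat.div_one, one_mul, one_pow, mul_one]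
      exact ⟨(hS j hj).1, (hS j hj).2.1,
        pow_le_pow_of_le_one (by norm_num) (by norm_num) (hS j hj).2.2.le⟩
  simp only [one_mul, Nat.primeFactors_one, card_empty, pow_zero, mul_one, Nat.cast_one, div_one,
    sub_self, zero_mul, add_zero, Cv.Wi, Wn_filter] at h1
  have h2 := (hM (2 ^ aw m k) (2 ^ bw m k) (le_trans (by omega) ((le_YY m).trans (YY_le m1 k)))
    (Nat.le_self_pow ((aw_ne m1 k).bot_lt.trans_le (aw_le_bw k)).ne' 2)).1
  have h3 := (LL_pow ((aw_ne m1 k).bot_lt.trans_le (aw_le_bw k)).ne').1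
  have h4 := (LL_pow (aw_ne m1 k)).2
  have h5 := (log_pow_two (m ^ 3)).1
  rw [bw, Nat.cast_mul, Real.log_mul (Nat.cast_ne_zero.2 (pow_ne_zero _ (aw_ne m1 k)))
    (by positivity), Nat.cast_pow, Real.log_pow, ← bw] at h3
  refine fr_end (sum_nonneg fun _ _ => V.w0 _ _) le_rfl (by positivity) h1 ?_
  have m2 : (22 : ℝ) ≤ m := by exact_mod_cast (by omega : 22 ≤ m)
  obtain ⟨m3, m4, -⟩ := fr_pow m2
  push_cast at h3 h5 ⊢
  have h6 : 1 / 4 * ((m : ℝ) ^ 3 / 2 - 1) ≤ al * (LL (2 ^ bw m k) - 2 * LL (2 ^ aw m k)) :=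
    mul_le_mul a1 (by linarith) (by linarith) (by linarith)
  linarith

theorem r6 (h : V.HT P) (hM : C.Ms P al) (a1 : 1 / 4 ≤ al) : V.R6 := by
  refine (((r6k h hM a1 (k := 0) (by norm_num)).or (r6k h hM a1 (k := 1) (by norm_num))).or
    (r6k h hM a1 (k := 2) (by norm_num))).mono fun m X n k => ?_
  obtain ⟨k1, k2⟩ := k
  simp only [Cv.H6, not_forall, not_le] at k2
  obtain ⟨k, k3, k4⟩ := k2
  interval_cases k
  exacts [.inl (.inl ⟨k1, k4⟩), .inl (.inr ⟨k1, k4⟩), .inr ⟨k1, k4⟩]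

theorem r7 (h : V.HT P) (hM : C.Ms P al) (a1 : 1 / 4 ≤ al) (a2 : al ≤ 1 / 2) : V.R7 := by
  obtain ⟨K, T0, K0, h⟩ := h.chern
  obtain ⟨z0, c1, c0, hM⟩ := hM
  refine rare_of' (T0 + z0 + 2000) (K * Real.exp (|c0| + 1)) fun m hm T hT S hS => ?_
  have m1 : 1 ≤ m := by omega
  have b1 : 2 ≤ V.X T := (two_le_X hT).trans (V.le_X T)
  have y1 : YY m ≤ zz m := YY_le m1 3
  have y2 := le_YY m
  have h1 := h T (le_trans (by omega) (le_T (by omega) hT)) 1 le_rfl (by omega)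
    (Wn (zz m) (V.X T) C.Ty2) (Wn (YY m) (V.X T) C.Ty1) (9 / 10) (100 / 81) ((9 / 10) ^ m ^ 3)
    (disjoint_left.2 fun p k k' => (mem_Wn.1 k').2.2.not2 (mem_Wn.1 k).2.2) (fun p hp => by
      rcases mem_union.1 hp with k | k <;> exact ⟨(mem_Wn.1 k).2.2.1.1, (mem_Wn.1 k).2.1⟩)
    (by norm_num) (by norm_num) (by norm_num) (by norm_num) S fun j hj => by
      rw [Nat.div_one, one_mul]
      refine ⟨(hS j hj).1, (hS j hj).2.1, le_trans (le_of_eq ?_) (mul_le_mul_of_nonneg_right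
        (pow_le_pow_of_le_one (by norm_num) (by norm_num) (not_le.1 (hS j hj).2.2).le)
        (by positivity))⟩
      rw [pow_add, pow_mul, mul_assoc, ← mul_pow]
      norm_num
  simp only [one_mul, Nat.primeFactors_one, card_empty, pow_zero, mul_one, Nat.cast_one, div_one,
    Wn_filter] at h1
  have h2 := (hM (zz m) (V.X T) (by omega) b1).1
  have h3 := (hM (YY m) (V.X T) (by omega) b1).2.1
  have h4 := LL_zz (m := m) (by omega)
  have h5 := LL_YY m1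
  have h6 := LL_X (V := V) hT
  refine fr_end (sum_nonneg fun _ _ => V.w0 _ _) (by norm_num) (by positivity) h1 ?_
  have m2 : (2000 : ℝ) ≤ m := by exact_mod_cast (by omega : 2000 ≤ m)
  obtain ⟨m3, m4, m5⟩ := fr_pow m2
  have h7 : 1 / 4 * ((m : ℝ) ^ 4 / 2 - 1) ≤ al * LL (V.X T) :=
    mul_le_mul a1 h6 (by linarith) (by linarith)
  have h8 : al * LL (zz m) ≤ 1 / 2 * (22 * (m : ℝ) ^ 3) :=
    mul_le_mul a2 h4 (LL_nonneg (by omega)) (by norm_num)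
  push_cast
  linarith [le_abs_self c0, abs_nonneg c0]

theorem r5 (h : V.HT P) (hM : C.Ms P al) (a1 : 1 / 4 ≤ al) : V.R5 := by
  obtain ⟨K, T0, K0, h⟩ := h.chern
  obtain ⟨z0, c1, c0, hM⟩ := hM
  obtain ⟨B, B1, hB⟩ := C.kd_U
  obtain ⟨K1, hK⟩ : ∃ K, K = Nat.card (C.U 1) := ⟨_, rfl⟩
  refine rare_of' (T0 + z0 + c1 * B + 2000) (K1 * K * Real.exp (2 * c0 + 1))
    fun m hm T hT S hS => ?_
  have m6 : 6 ≤ m := by omega
  have b1 : 2 ≤ V.X T := (two_le_X hT).trans (V.le_X T)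
  have y1 : YY m ≤ zz m := YY_le (by omega) 3
  have y2 := le_YY m
  have m2 : (2000 : ℝ) ≤ m := by exact_mod_cast (by omega : 2000 ≤ m)
  obtain ⟨m3, m4, m5⟩ := fr_pow m2
  obtain ⟨D, hD⟩ : ∃ D, D = (Icc 1 (YY m ^ m)).filter fun d => d.primeFactors.card ≤ m := ⟨_, rfl⟩
  obtain ⟨F, hF⟩ : ∃ F : ℕ → (GQ → C.A) → Finset ℕ, ∀ d c, F d c = (Icc 1 (V.X T / d)).filter
    fun k => Squarefree (d * k) ∧ k.primeFactors ∩
      Wn (zz m) (V.X T) (fun p => C.Ty2 p ∧ C.sy c p = 1) = ∅ := ⟨_, fun _ _ => rfl⟩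
  have c1' : ∑ n ∈ S, V.w T n ≤
      ∑ d ∈ D, ∑ c ∈ (C.Uf d).erase 0, ∑ k ∈ F d c, V.w T (d * k) := by
    rw [sum_sigma', sum_sigma']
    refine le_trans (sum_le_sum_of_subset_of_nonneg (fun n hn => ?_) fun n _ _ => V.w0 T n)
      (sum_image_le_of_nonneg (g := fun x : Σ _ : (Σ _ : ℕ, GQ → C.A), ℕ => x.1.1 * x.2)
        (f := V.w T) fun x _ => V.w0 T _)
    obtain ⟨e1, e2, e3, e4⟩ := hS n hn
    simp only [Cv.Sees, not_forall, not_exists, not_and] at e4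
    obtain ⟨c, hc, c0, e4⟩ := e4
    have d1 : 0 < d0 m n := Nat.pos_of_ne_zero (d0_sq m n).ne_zero
    have hmul := d0_mul (m := m) e2
    have hk : Squarefree (∏ p ∈ lP m n, p) := (hmul ▸ e2).of_mul_right
    refine mem_image.2 ⟨⟨⟨d0 m n, c⟩, ∏ p ∈ lP m n, p⟩, mem_sigma.2 ⟨mem_sigma.2 ⟨?_, mem_erase.2 ⟨c0,
      (Cv.mem_Uf (Nat.cast_ne_zero.2 d1.ne')).2 hc⟩⟩, ?_⟩, hmul⟩
    · rw [hD]
      exact mem_filter.2 ⟨mem_Icc.2 ⟨d1, d0_le e3⟩, by rw [d0_pf]; exact e3⟩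
    · change ∏ p ∈ lP m n, p ∈ F (d0 m n) c
      rw [hF]
      refine mem_filter.2 ⟨mem_Icc.2 ⟨Nat.pos_of_ne_zero hk.ne_zero, ?_⟩, hmul.symm ▸ e2,
        eq_empty_of_forall_notMem fun p hp => ?_⟩
      · rw [Nat.le_div_iff_mul_le d1, mul_comm, hmul]; exact (mem_Icc.1 e1).2
      · obtain ⟨f1, f2⟩ := mem_inter.1 hp
        obtain ⟨f2, -, f3, f4⟩ := mem_Wn.1 f2
        rw [lP_pf] at f1
        exact e4 p (mem_filter.1 f1).1 f2 f3 f4
  obtain ⟨E, hE⟩ : ∃ E : ℝ, E = 2 * c0 + 1 - 2 * (m : ℝ) ^ 3 := ⟨_, rfl⟩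
  have c2 : ∀ d ∈ D, ∑ c ∈ (C.Uf d).erase 0, ∑ k ∈ F d c, V.w T (d * k) ≤
      K1 * 4 ^ m * (K * 2 ^ m * V.X T * Real.exp E) * (1 / d : ℝ) := by
    intro d hd
    obtain ⟨d1, d2⟩ := mem_filter.1 (hD ▸ hd)
    obtain ⟨d0, d1⟩ := mem_Icc.1 d1
    have dz : (d : ℤ) ≠ 0 := Nat.cast_ne_zero.2 (by omega)
    have e1 : ((C.Uf d).erase 0).card ≤ K1 * 4 ^ m := card_erase_le.trans
      ((Cv.card_Uf (by omega)).trans (hK ▸ Nat.mul_le_mul_left _
        (Nat.pow_le_pow_right (by norm_num) d2)))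
    have e2 : (((C.Uf d).erase 0).card : ℝ) ≤ K1 * 4 ^ m := by exact_mod_cast e1
    rw [mul_assoc]
    refine (sum_le_card_nsmul _ _ (K * 2 ^ m * V.X T * Real.exp E * (1 / d : ℝ))
      fun c hc => ?_).trans ?_
    · obtain ⟨f1, f2⟩ := mem_erase.1 hc
      rw [Cv.mem_Uf dz] at f2
      have f3 : (1 : ℝ) ≤ B * ((d : ℤ) : ℝ) ^ 2 := by
        exact_mod_cast Nat.mul_le_mul B1 (Nat.one_le_pow 2 d d0)
      have f4 := (hM (zz m) (V.X T) (by omega) b1).2.2 d c _ f2 f1 (hB d dz c f2) f3 (by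
        rw [← mul_assoc]
        exact_mod_cast fr_thr (B := c1 * B) (by omega) (by omega) d1)
      have f5 := h T (le_trans (by omega) (le_T (by omega) hT)) d d0
        ((fr_eight (by omega) hT d1).trans (V.le_X T))
        (Wn (zz m) (V.X T) fun p => C.Ty2 p ∧ C.sy c p = 1) ∅ 0 1 1 (disjoint_empty_right _)
        (fun p hp => by
          rw [union_empty] at hp
          exact ⟨(mem_Wn.1 hp).2.2.1.1.1, (mem_Wn.1 hp).2.1⟩)
        le_rfl two_pos.le zero_le_one one_le_two (F d c) fun j hj => by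
          obtain ⟨g1, g2, g3⟩ := mem_filter.1 (hF d c ▸ hj)
          exact ⟨g1, g2, by simp [g3]⟩
      rw [mul_one, Wn_filter] at f5
      have h4 := LL_zz (m := m) (by omega)
      have h7 : 1 / 4 * ((m : ℝ) ^ 4 / 2 - 1) ≤ al * LL (V.X T) :=
        mul_le_mul a1 (LL_X hT) (by linarith) (by linarith)
      refine f5.trans (le_of_le_of_eq (b := K * 2 ^ m / d * V.X T * Real.exp E) ?_ (by ring))
      gcongr
      · exact one_le_two
      · linarith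
    · rw [nsmul_eq_mul]
      exact mul_le_mul_of_nonneg_right e2 (by positivity)
  have c3 : ∑ n ∈ S, V.w T n ≤
      K1 * 4 ^ m * (K * 2 ^ m * V.X T * Real.exp E) * (1 + (m : ℝ) ^ 25) := by
    refine c1'.trans ((sum_le_sum c2).trans ?_)
    rw [← mul_sum, hD]
    exact mul_le_mul_of_nonneg_left ((sum_le_sum_of_subset_of_nonneg (filter_subset _ _)
      fun d _ _ => by positivity).trans (sum_inv_d0 m)) (by positivity)
  have c4 : (4 : ℝ) ^ m * 2 ^ m ≤ 2 ^ (m + 4) * 2 ^ m ^ 2 := by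
    rw [← pow_add, show (4 : ℝ) = 2 ^ 2 by norm_num, ← pow_mul, ← pow_add]
    exact pow_le_pow_right₀ one_le_two (by nlinarith)
  have c5 : (4 : ℝ) ^ m * 2 ^ m * (1 + (m : ℝ) ^ 25) * m ≤ Real.exp (m ^ 3 : ℕ) :=
    le_trans (by gcongr) ((anc_num m6).trans (pow_le_exp two_pos.le le_rfl _))
  refine (mul_le_mul_of_nonneg_right c3 m.cast_nonneg).trans (le_of_eq_of_le
    (b := K1 * K * (4 ^ m * 2 ^ m * (1 + (m : ℝ) ^ 25) * m * Real.exp E) * V.X T) (by ring) ?_)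
  gcongr
  refine (mul_le_mul_of_nonneg_right c5 (Real.exp_pos _).le).trans ?_
  rw [← Real.exp_add, hE]
  push_cast
  exact Real.exp_le_exp.2 (by linarith)

end Wt

end Pool.Agent.B6.S
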